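import Pool.Agent.Helper56.AP.Stmts

/-!
# Block UHs of UH (project A', MP_8958e8): the sizes of the products of one prime from each interval
-/

set_option autoImplicit false

open Finset Filter
open Pool.Agent.AP

namespace Pool.Agent.Helper64.UHs

/-- the interval of w -/
noncomputable def IW (T : ℝ) : Finset ℕ := IP (6 / 100 + (1 / 1000000) / 4) (1 / 100000000) T

lemma IP_mem {e v T : ℝ} {p : ℕ} (hp : p ∈ IP e v T) : p.Prime ∧ T ^ e < (p : ℝ) ∧
    (1 ≤ T → (p : ℝ) ≤ T ^ (e + v)) := by
  rw [IP, mem_filter, mem_Icc] at hp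
  refine ⟨hp.2.1, hp.2.2, fun hT => ?_⟩
  exact (Nat.le_floor_iff (by positivity)).mp hp.1.2

/-- the size of the elements of `PU (IL es v T)` -/
lemma PU_size {v T : ℝ} (hT : 1 ≤ T) (es : List ℝ) : ∀ u ∈ PU (IL es v T),
    T ^ es.sum ≤ (u : ℝ) ∧ (u : ℝ) ≤ T ^ (es.sum + es.length * v) := by
  have hT0 : 0 < T := by linarith
  induction es with
  | nil =>
    intro u hu
    simp only [IL, List.map_nil, PU, mem_singleton] at hu
    subst hu
    simp
  | cons e es ih =>
    intro u hu
    have hu' : u ∈ PU ((IP e v T) :: IL es v T) := hu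
    rw [PU, mem_image] at hu'
    obtain ⟨⟨p, q⟩, hpq, rfl⟩ := hu'
    obtain ⟨hp, hq⟩ := mem_product.mp hpq
    obtain ⟨-, h1, h2⟩ := IP_mem hp
    obtain ⟨h3, h4⟩ := ih q hq
    have h2' := h2 hT
    simp only
    push_cast
    rw [List.sum_cons]
    constructor
    · rw [Real.rpow_add hT0]
      exact mul_le_mul h1.le h3 (by positivity) (by positivity)
    · have e1 : e + es.sum + ((es.length : ℝ) + 1) * v = (e + v) + (es.sum + es.length * v) := by ring
      rw [List.length_cons]
      push_cast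
      rw [e1, Real.rpow_add hT0]
      exact mul_le_mul h2' h4 (by positivity) (by positivity)

/-- removing elements -/
lemma sum_le_of_sublist {m : ℝ} (hm : 0 ≤ m) {l' l : List ℝ} (h : l'.Sublist l) : (∀ x ∈ l, m ≤ x) →
    l'.sum ≤ l.sum ∧ (l' ≠ l → l'.sum ≤ l.sum - m) := by
  induction h with
  | slnil => intro _; simp
  | @cons l₁ l₂ a h ih =>
    intro hx
    have ha := hx a List.mem_cons_self
    have hi := (ih fun x hx' => hx x (List.mem_cons_of_mem _ hx')).1
    rw [List.sum_cons]
    exact ⟨by linarith, fun _ => by linarith⟩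
  | @cons_cons l₁ l₂ a h ih =>
    intro hx
    have hi := ih fun x hx' => hx x (List.mem_cons_of_mem _ hx')
    rw [List.sum_cons, List.sum_cons]
    refine ⟨by linarith [hi.1], fun hne => ?_⟩
    have := hi.2 (fun h' => hne (by rw [h']))
    linarith

lemma PU_singleton (I : Finset ℕ) : PU [I] = I := by
  ext n
  rw [PU, PU, mem_image]
  constructor
  · rintro ⟨⟨a, b⟩, hab, rfl⟩
    obtain ⟨h1, h2⟩ := mem_product.mp hab
    rw [mem_singleton] at h2
    simp only at h1 h2 ⊢
    rw [h2, mul_one]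
    exact h1
  · intro hn
    exact ⟨(n, 1), mem_product.mpr ⟨hn, mem_singleton_self _⟩, mul_one _⟩

/-- the primes dividing an element of `PU J` are in the sets of `J` -/
lemma PU_prime {J : List (Finset ℕ)} (hp : ∀ I ∈ J, ∀ p ∈ I, p.Prime) : ∀ u ∈ PU J, ∀ p : ℕ, p.Prime →
    p ∣ u → ∃ I ∈ J, p ∈ I := by
  induction J with
  | nil =>
    intro u hu p hpp hpu
    rw [PU, mem_singleton] at hu
    subst hu
    exact absurd (Nat.dvd_one.mp hpu) hpp.one_lt.ne'
  | cons I J ih =>
    intro u hu p hpp hpu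
    rw [PU, mem_image] at hu
    obtain ⟨⟨a, b⟩, hab, rfl⟩ := hu
    obtain ⟨h1, h2⟩ := mem_product.mp hab
    rcases (hpp.dvd_mul).mp hpu with h3 | h3
    · have h4 := (Nat.prime_dvd_prime_iff_eq hpp (hp I List.mem_cons_self a h1)).mp h3
      exact ⟨I, List.mem_cons_self, h4 ▸ h1⟩
    · obtain ⟨I', hI', hpI'⟩ := ih (fun I' hI' => hp I' (List.mem_cons_of_mem _ hI')) b h2 p hpp h3
      exact ⟨I', List.mem_cons_of_mem _ hI', hpI'⟩

lemma IP_disj {e e' v T : ℝ} (hT : 1 ≤ T) (h : e + v < e') : Disjoint (IP e v T) (IP e' v T) := by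
  rw [disjoint_left]
  intro p hp hp'
  obtain ⟨-, -, h1⟩ := IP_mem hp
  obtain ⟨-, h2, -⟩ := IP_mem hp'
  have h3 : T ^ (e + v) ≤ T ^ e' := Real.rpow_le_rpow_of_exponent_le hT h.le
  linarith [h1 hT]

/-- the two large cases -/
lemma large (hsp : Stmt_PU_split) {J J' : List (Finset ℕ)} {W : Finset ℕ} (hperm : J.Perm (J' ++ [W]))
    (hp : ∀ I ∈ J, ∀ p ∈ I, p.Prime) (hd : J.Pairwise (fun I J => Disjoint I J)) :
    (∀ g : ℕ → ℝ, ∑ u ∈ PU J, g u = ∑ q ∈ PU J', ∑ w ∈ W, g (q * w)) ∧
      (∀ q ∈ PU J', ∀ w ∈ W, Nat.Coprime q w ∧ q * w ∈ PU J) := by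
  have h1 : ∀ g : ℕ → ℝ, ∑ u ∈ PU J, g u = ∑ q ∈ PU J', ∑ w ∈ W, g (q * w) := by
    intro g
    have := hsp hperm hp hd g
    rwa [PU_singleton] at this
  refine ⟨h1, fun q hq w hw => ?_⟩
  have hWJ : W ∈ J := hperm.mem_iff.mpr (List.mem_append_right _ (List.mem_singleton_self _))
  have hpw := hp W hWJ w hw
  constructor
  · rw [Nat.coprime_comm, Nat.Prime.coprime_iff_not_dvd hpw]
    intro hwq
    have hpJ' : ∀ I ∈ J', ∀ p ∈ I, p.Prime := fun I hI =>
      hp I (hperm.mem_iff.mpr (List.mem_append_left _ hI))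
    obtain ⟨I, hI, hwI⟩ := PU_prime hpJ' q hq w hpw hwq
    have hd2 : (J' ++ [W]).Pairwise (fun I J => Disjoint I J) :=
      (hperm.pairwise_iff (fun h => h.symm)).mp hd
    rw [List.pairwise_append] at hd2
    have := hd2.2.2 I hI W (List.mem_singleton_self _)
    exact disjoint_left.mp this hwI hw
  · by_contra hne
    have h2 := h1 (fun u => if u = q * w then 1 else 0)
    have h3 : ∑ u ∈ PU J, (if u = q * w then (1 : ℝ) else 0) = 0 := by
      refine sum_eq_zero fun u hu => ?_
      rw [if_neg]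
      rintro rfl
      exact hne hu
    rw [h3] at h2
    have h4 : (1 : ℝ) ≤ ∑ q' ∈ PU J', ∑ w' ∈ W, (if q' * w' = q * w then (1 : ℝ) else 0) := by
      have h5 : (1 : ℝ) ≤ ∑ w' ∈ W, (if q * w' = q * w then (1 : ℝ) else 0) := by
        have := single_le_sum (f := fun w' => if q * w' = q * w then (1 : ℝ) else 0)
          (fun w' _ => by split_ifs <;> norm_num) hw
        simpa using this
      refine h5.trans ?_
      exact single_le_sum (f := fun q' => ∑ w' ∈ W, (if q' * w' = q * w then (1 : ℝ) else 0))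
        (fun q' _ => sum_nonneg fun w' _ => by split_ifs <;> norm_num) hq
    linarith

theorem sizes (hsp : Stmt_PU_split) : ∀ᶠ T : ℝ in atTop, ∀ J : List (Finset ℕ), J.Sublist (IF T) →
    (∀ u ∈ PU J, (u : ℝ) ≤ T ^ (483 / 1000 : ℝ)) ∨
    (∃ J' : List (Finset ℕ), J'.Sublist (IF T) ∧
      (∀ g : ℕ → ℝ, ∑ u ∈ PU J, g u = ∑ q ∈ PU J', ∑ w ∈ IW T, g (q * w)) ∧
      (∀ q ∈ PU J', ∀ w ∈ IW T, Nat.Coprime q w ∧ q * w ∈ PU J) ∧
      (∀ q ∈ PU J', T ^ (2 / 5 : ℝ) ≤ q ∧ (q : ℝ) ≤ T ^ (441 / 1000 : ℝ))) := by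
  filter_upwards [eventually_ge_atTop (1 : ℝ)] with T hT J hJ
  have hpr : ∀ I ∈ IF T, ∀ p ∈ I, p.Prime := by
    intro I hI p hp
    rw [IF, IL, List.mem_map] at hI
    obtain ⟨e, -, rfl⟩ := hI
    exact (IP_mem hp).1
  have hdis : (IF T).Pairwise (fun I J => Disjoint I J) := by
    rw [IF, IL, List.pairwise_map]
    have hch : (esF (1 / 1000000)).Pairwise (fun x y => x + 1 / 100000000 < y) := by
      unfold esF
      simp only [List.pairwise_cons, List.mem_cons, List.not_mem_nil, or_false, forall_eq_or_imp,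
        forall_eq, List.Pairwise.nil, and_true, false_implies, implies_true]
      norm_num
    exact hch.imp fun h => IP_disj hT h
  have hpJ : ∀ I ∈ J, ∀ p ∈ I, p.Prime := fun I hI => hpr I (hJ.subset hI)
  have hdJ : J.Pairwise (fun I J => Disjoint I J) := hdis.sublist hJ
  have hJ0 := hJ
  rw [IF, IL, List.sublist_map_iff] at hJ
  obtain ⟨l, hl, rfl⟩ := hJ
  set rest : List ℝ := [2 / 100, 4 / 100, 6 / 100 + (1 / 1000000) / 4, 8 / 100, 13 / 100, 16 / 100] with hrest
  have hes : esF (1 / 1000000) = (1 / 100) :: rest := rfl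
  have hrs : rest.sum = 49 / 100 + 1 / 4000000 := by
    rw [hrest]
    norm_num
  have hmr : ∀ x ∈ rest, (2 / 100 : ℝ) ≤ x := by
    intro x hx
    rw [hrest] at hx
    simp only [List.mem_cons, List.not_mem_nil, or_false] at hx
    rcases hx with rfl | rfl | rfl | rfl | rfl | rfl <;> norm_num
  have hlen : (l.length : ℝ) ≤ 7 := by
    have := hl.length_le
    rw [hes] at this
    have h7 : ((1 / 100 : ℝ) :: rest).length = 7 := rfl
    rw [h7] at this
    exact_mod_cast this
  -- the small case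
  have small : l.sum ≤ 48 / 100 + 1 / 4000000 → ∀ u ∈ PU (l.map fun e => IP e (1 / 100000000) T),
      (u : ℝ) ≤ T ^ (483 / 1000 : ℝ) := by
    intro hs u hu
    refine (PU_size hT l u hu).2.trans (Real.rpow_le_rpow_of_exponent_le hT ?_)
    linarith
  rw [hes] at hl
  rcases List.sublist_cons_iff.mp hl with h1 | ⟨l2, rfl, h2⟩
  · by_cases hne : l = rest
    · right
      subst hne
      refine ⟨([2 / 100, 4 / 100, 8 / 100, 13 / 100, 16 / 100] : List ℝ).map
        (fun e => IP e (1 / 100000000) T), ?_, ?_⟩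
      · rw [IF, IL, hes]
        refine List.Sublist.map _ ?_
        rw [hrest]
        refine List.Sublist.cons _ (List.Sublist.cons_cons _ (List.Sublist.cons_cons _
          (List.Sublist.cons _ (List.Sublist.refl _))))
      · have hperm : (rest.map fun e => IP e (1 / 100000000) T).Perm
            (([2 / 100, 4 / 100, 8 / 100, 13 / 100, 16 / 100] : List ℝ).map
              (fun e => IP e (1 / 100000000) T) ++ [IW T]) := by
          rw [hrest]
          refine List.Perm.cons _ (List.Perm.cons _ (List.perm_append_singleton _ _).symm)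
        obtain ⟨g1, g2⟩ := large hsp hperm hpJ hdJ
        refine ⟨g1, g2, fun q hq => ?_⟩
        obtain ⟨s1, s2⟩ := PU_size hT _ q hq
        refine ⟨le_trans (Real.rpow_le_rpow_of_exponent_le hT ?_) s1,
          s2.trans (Real.rpow_le_rpow_of_exponent_le hT ?_)⟩
        · norm_num
        · norm_num
    · left
      apply small
      have := (sum_le_of_sublist (by norm_num) h1 hmr).2 hne
      linarith
  · by_cases hne : l2 = rest
    · right
      subst hne
      refine ⟨([1 / 100, 2 / 100, 4 / 100, 8 / 100, 13 / 100, 16 / 100] : List ℝ).map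
        (fun e => IP e (1 / 100000000) T), ?_, ?_⟩
      · rw [IF, IL, hes]
        refine List.Sublist.map _ ?_
        rw [hrest]
        refine List.Sublist.cons_cons _ (List.Sublist.cons_cons _ (List.Sublist.cons_cons _
          (List.Sublist.cons _ (List.Sublist.refl _))))
      · have hperm : (((1 / 100 : ℝ) :: rest).map fun e => IP e (1 / 100000000) T).Perm
            (([1 / 100, 2 / 100, 4 / 100, 8 / 100, 13 / 100, 16 / 100] : List ℝ).map
              (fun e => IP e (1 / 100000000) T) ++ [IW T]) := by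
          rw [hrest]
          refine List.Perm.cons _ (List.Perm.cons _ (List.Perm.cons _
            (List.perm_append_singleton _ _).symm))
        obtain ⟨g1, g2⟩ := large hsp hperm hpJ hdJ
        refine ⟨g1, g2, fun q hq => ?_⟩
        obtain ⟨s1, s2⟩ := PU_size hT _ q hq
        refine ⟨le_trans (Real.rpow_le_rpow_of_exponent_le hT ?_) s1,
          s2.trans (Real.rpow_le_rpow_of_exponent_le hT ?_)⟩
        · norm_num
        · norm_num
    · left
      apply small
      have := (sum_le_of_sublist (by norm_num) h2 hmr).2 hne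
      rw [List.sum_cons]
      linarith

end Pool.Agent.Helper64.UHs
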