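import Pool.Agent.Helper57.BG.Data
import Pool.Agent.Helper57.BG.Stmts

/-!
# (A') block T4: the tiny type II sum, `x = x'`
-/

set_option autoImplicit false

open Finset

namespace Pool.Agent.Helper64.AP

open Pool.Agent.Helper57.BG

/-! ### elementary counting -/

lemma card_dyadic {S : Finset ℕ} {A : ℝ} (hA : 1 ≤ A) (hS : ∀ n ∈ S, A < n ∧ (n : ℝ) ≤ 2 * A) :
    (S.card : ℝ) ≤ 2 * A := by
  have h1 : S ⊆ Ioc ⌊A⌋₊ ⌊2 * A⌋₊ := by
    intro n hn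
    obtain ⟨h2, h3⟩ := hS n hn
    rw [mem_Ioc]
    exact ⟨(Nat.floor_lt (by linarith)).mpr h2, Nat.le_floor h3⟩
  have h2 := card_le_card h1
  rw [Nat.card_Ioc] at h2
  have h3 : (⌊2 * A⌋₊ : ℝ) ≤ 2 * A := Nat.floor_le (by linarith)
  have h5 : ((⌊2 * A⌋₊ - ⌊A⌋₊ : ℕ) : ℝ) ≤ (⌊2 * A⌋₊ : ℝ) := by exact_mod_cast Nat.sub_le _ _
  calc (S.card : ℝ) ≤ ((⌊2 * A⌋₊ - ⌊A⌋₊ : ℕ) : ℝ) := by exact_mod_cast h2
    _ ≤ (⌊2 * A⌋₊ : ℝ) := h5
    _ ≤ 2 * A := h3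

lemma card_mult (H g : ℕ) (hg : 0 < g) :
    ((((Icc (-(H : ℤ)) H).erase 0).filter (fun η => (g : ℤ) ∣ η)).card : ℝ) ≤ 2 * H / g := by
  have hg' : (0 : ℤ) < g := by exact_mod_cast hg
  have h1 : (((Icc (-(H : ℤ)) H).erase 0).filter (fun η => (g : ℤ) ∣ η)).card ≤
      ((Icc (-((H / g : ℕ) : ℤ)) ((H / g : ℕ) : ℤ)).erase 0).card := by
    apply card_le_card_of_injOn (fun η => η / (g : ℤ))
    · intro η hη
      rw [coe_filter, Set.mem_ofPred_eq, mem_erase, mem_Icc] at hη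
      obtain ⟨⟨h0, h2, h3⟩, m, rfl⟩ := hη
      rw [coe_erase, Set.mem_sdiff, coe_Icc, Set.mem_Icc, Set.mem_singleton_iff]
      simp only
      rw [Int.mul_ediv_cancel_left _ hg'.ne']
      have e1 : ((H / g : ℕ) : ℤ) = (H : ℤ) / g := by push_cast; rfl
      rw [e1]
      refine ⟨⟨?_, ?_⟩, ?_⟩
      · have : -m ≤ (H : ℤ) / g := by
          rw [Int.le_ediv_iff_mul_le hg']
          nlinarith
        linarith
      · rw [Int.le_ediv_iff_mul_le hg']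
        nlinarith
      · rintro rfl
        simp at h0
    · intro η hη η' hη' heq
      rw [coe_filter, Set.mem_ofPred_eq] at hη hη'
      obtain ⟨-, m, rfl⟩ := hη
      obtain ⟨-, m', rfl⟩ := hη'
      simp only at heq
      rw [Int.mul_ediv_cancel_left _ hg'.ne', Int.mul_ediv_cancel_left _ hg'.ne'] at heq
      rw [heq]
  have key : ∀ m : ℕ, ((Icc (-(m : ℤ)) m).erase 0).card = 2 * m := by
    intro m
    rw [card_erase_of_mem (by rw [mem_Icc]; constructor <;> omega), Int.card_Icc]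
    omega
  have h2 := key (H / g)
  rw [h2] at h1
  have h3 : ((H / g : ℕ) : ℝ) ≤ (H : ℝ) / g := Nat.cast_div_le
  calc ((((Icc (-(H : ℤ)) H).erase 0).filter (fun η => (g : ℤ) ∣ η)).card : ℝ) ≤
      ((2 * (H / g) : ℕ) : ℝ) := by exact_mod_cast h1
    _ = 2 * ((H / g : ℕ) : ℝ) := by push_cast; ring
    _ ≤ 2 * ((H : ℝ) / g) := by gcongr
    _ = _ := by ring

lemma sum_gcd (H x : ℕ) (hx : 0 < x) :
    ∑ η ∈ (Icc (-(H : ℤ)) H).erase 0, Real.sqrt ((Int.gcd η x : ℕ) : ℝ) ≤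
      2 * H * x.divisors.card := by
  have h1 : ∀ η ∈ (Icc (-(H : ℤ)) H).erase 0, Real.sqrt ((Int.gcd η x : ℕ) : ℝ) ≤
      ∑ g ∈ x.divisors, if (g : ℤ) ∣ η then Real.sqrt g else 0 := by
    intro η _
    have hd : Int.gcd η x ∈ x.divisors := by
      rw [Nat.mem_divisors]
      refine ⟨?_, hx.ne'⟩
      have := Int.gcd_dvd_right η (x : ℤ)
      exact_mod_cast this
    have h2 := single_le_sum (f := fun g : ℕ => if (g : ℤ) ∣ η then Real.sqrt (g : ℝ) else 0)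
      (fun g _ => by split_ifs <;> positivity) hd
    rwa [if_pos (Int.gcd_dvd_left η (x : ℤ))] at h2
  calc ∑ η ∈ (Icc (-(H : ℤ)) H).erase 0, Real.sqrt ((Int.gcd η x : ℕ) : ℝ) ≤
      ∑ η ∈ (Icc (-(H : ℤ)) H).erase 0, ∑ g ∈ x.divisors,
        (if (g : ℤ) ∣ η then Real.sqrt g else 0) := sum_le_sum h1
    _ = ∑ g ∈ x.divisors, ∑ η ∈ (Icc (-(H : ℤ)) H).erase 0,
        (if (g : ℤ) ∣ η then Real.sqrt g else 0) := sum_comm
    _ ≤ ∑ g ∈ x.divisors, (2 * H : ℝ) := by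
        refine sum_le_sum fun g hg => ?_
        have hg0 : 0 < g := Nat.pos_of_mem_divisors hg
        rw [← sum_filter, sum_const, nsmul_eq_mul]
        have h3 := card_mult H g hg0
        have hgr : (1 : ℝ) ≤ g := by exact_mod_cast hg0
        have h4 : Real.sqrt g ≤ g := by
          rw [Real.sqrt_le_left (by linarith)]
          nlinarith
        calc ((((Icc (-(H : ℤ)) H).erase 0).filter (fun η => (g : ℤ) ∣ η)).card : ℝ) *
            Real.sqrt g ≤ 2 * H / g * g := by gcongr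
          _ = 2 * H := by field_simp
    _ = 2 * H * x.divisors.card := by rw [sum_const, nsmul_eq_mul]; ring

lemma gcd_mul_le (η k : ℤ) (x : ℕ) (hx : 0 < x) (hk : k ≠ 0) :
    ((Int.gcd (-(η * k)) x : ℕ) : ℝ) ≤ |(k : ℝ)| * ((Int.gcd η x : ℕ) : ℝ) := by
  have h1 : Int.gcd (-(η * k)) x ≤ k.natAbs * Int.gcd η x := by
    rw [Int.gcd_eq_natAbs, Int.gcd_eq_natAbs, Int.natAbs_neg, Int.natAbs_mul, Int.natAbs_natCast]
    refine Nat.le_of_dvd ?_ ?_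
    · exact Nat.mul_pos (Int.natAbs_pos.mpr hk) (Nat.gcd_pos_of_pos_right _ hx)
    · have h2 := Nat.gcd_mul_right_dvd_mul_gcd x η.natAbs k.natAbs
      rw [Nat.gcd_comm]
      refine h2.trans ?_
      rw [Nat.gcd_comm x η.natAbs, mul_comm]
      exact Nat.mul_dvd_mul_right (Nat.gcd_dvd_right _ _) _
  have h2 : |(k : ℝ)| = (k.natAbs : ℝ) := by
    rw [← Int.cast_abs, Int.abs_eq_natAbs, Int.cast_natCast]
  rw [h2]
  exact_mod_cast h1

lemma card_pm (m : ℕ) : ((Icc (-(m : ℤ)) m).erase 0).card = 2 * m := by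
  rw [card_erase_of_mem (by rw [mem_Icc]; constructor <;> omega), Int.card_Icc]
  omega

/-! ### the reorganisation -/

section

variable (p : TD)

/-- the conditions on the outer pair `(q'', w)` -/
def Xs (x q3 : ℕ) : Finset (ℕ × ℕ) := (p.QQ ×ˢ p.W).filter
  (fun y => Nat.Coprime x (y.1 * y.2) ∧ Nat.Coprime x q3 ∧ Nat.Coprime y.1 q3)

/-- the conditions on the inner prime -/
def Ws (x : ℕ) (y : ℕ × ℕ) : Finset ℕ := p.W.filter (fun w => Nat.Coprime w x ∧ w ≠ y.2)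

lemma cond_iff (h : p.Ok) {x q3 q w w' : ℕ} (hq3 : q3 ∈ p.QQ) (hq : q ∈ p.QQ) (hw : w ∈ p.W)
    (hw' : w' ∈ p.W) :
    (Nat.Coprime x (q * w) ∧ Nat.Coprime x (q3 * w') ∧ Nat.Coprime (q * w) (q3 * w')) ↔
      (Nat.Coprime x (q * w) ∧ Nat.Coprime x q3 ∧ Nat.Coprime q q3) ∧
        (Nat.Coprime w' x ∧ w' ≠ w) := by
  have h1 := h.hWQ w hw q3 hq3
  have h2 := h.hWQ w' hw' q hq
  have h3 := (h.hW w hw).1
  have h4 := (h.hW w' hw').1
  rw [Nat.coprime_mul_iff_right (k := x) (m := q3) (n := w'), Nat.coprime_mul_iff_right (k := q * w),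
    Nat.coprime_mul_iff_left, Nat.coprime_mul_iff_left, Nat.coprime_primes h3 h4,
    Nat.coprime_comm (n := x) (m := w')]
  constructor
  · rintro ⟨a, ⟨b, c⟩, ⟨d, -⟩, ⟨-, e⟩⟩
    exact ⟨⟨a, b, d⟩, c, fun h => e h.symm⟩
  · rintro ⟨⟨a, b, d⟩, c, e⟩
    exact ⟨a, ⟨b, c⟩, ⟨d, h1⟩, ⟨h2.symm, fun h => e h.symm⟩⟩

lemma reorg (h : p.Ok) (f : (ℕ × ℕ × ℕ) × (ℕ × ℕ × ℕ) → ℂ) :
    ∑ ii ∈ (p.I ×ˢ p.I).filter (fun ii => Nat.Coprime (ii.1.1 * ii.1.2.1) (ii.2.1 * ii.2.2.1) ∧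
        ii.1.2.2 = ii.2.2.2), f ii =
      ∑ x ∈ p.XX, ∑ q3 ∈ p.QQ, ∑ y ∈ Xs p x q3, ∑ w' ∈ Ws p x y,
        f ((y.1, y.2, x), (q3, w', x)) := by
  have h1 : ∑ ii ∈ (p.I ×ˢ p.I).filter (fun ii => Nat.Coprime (ii.1.1 * ii.1.2.1)
        (ii.2.1 * ii.2.2.1) ∧ ii.1.2.2 = ii.2.2.2), f ii =
      ∑ t ∈ (p.XX ×ˢ p.QQ ×ˢ (p.QQ ×ˢ p.W) ×ˢ p.W).filter (fun t =>
        Nat.Coprime t.1 (t.2.2.1.1 * t.2.2.1.2) ∧ Nat.Coprime t.1 (t.2.1 * t.2.2.2) ∧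
          Nat.Coprime (t.2.2.1.1 * t.2.2.1.2) (t.2.1 * t.2.2.2)),
        f ((t.2.2.1.1, t.2.2.1.2, t.1), (t.2.1, t.2.2.2, t.1)) := by
    refine sum_nbij' (fun ii => (ii.1.2.2, ii.2.1, (ii.1.1, ii.1.2.1), ii.2.2.1))
      (fun t => ((t.2.2.1.1, t.2.2.1.2, t.1), (t.2.1, t.2.2.2, t.1))) ?_ ?_ ?_ ?_ ?_
    · rintro ⟨⟨q, w, x⟩, ⟨q', w', x'⟩⟩ hii
      simp only [TD.I, mem_filter, mem_product] at hii ⊢
      obtain ⟨⟨⟨⟨a1, a2, a3⟩, a4⟩, ⟨⟨b1, b2, b3⟩, b4⟩⟩, c1, c2⟩ := hii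
      subst c2
      exact ⟨⟨a3, b1, ⟨a1, a2⟩, b2⟩, a4, b4, c1⟩
    · rintro ⟨x, q3, ⟨q, w⟩, w'⟩ ht
      simp only [TD.I, mem_filter, mem_product] at ht ⊢
      obtain ⟨⟨a1, a2, ⟨a3, a4⟩, a5⟩, b1, b2, b3⟩ := ht
      exact ⟨⟨⟨⟨a3, a4, a1⟩, b1⟩, ⟨a2, a5, a1⟩, b2⟩, b3, trivial⟩
    · rintro ⟨⟨q, w, x⟩, ⟨q', w', x'⟩⟩ hii
      simp only [mem_filter] at hii
      simp only [hii.2.2]
    · rintro ⟨x, q3, ⟨q, w⟩, w'⟩ _
      rfl
    · rintro ⟨⟨q, w, x⟩, ⟨q', w', x'⟩⟩ hii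
      simp only [mem_filter] at hii
      simp only [hii.2.2]
  rw [h1, sum_filter, sum_product]
  refine sum_congr rfl fun x _ => ?_
  rw [sum_product]
  refine sum_congr rfl fun q3 hq3 => ?_
  rw [sum_product, Xs, sum_filter]
  refine sum_congr rfl fun y hy => ?_
  obtain ⟨hq, hw⟩ := mem_product.mp hy
  rw [Ws, sum_filter]
  by_cases hA : Nat.Coprime x (y.1 * y.2) ∧ Nat.Coprime x q3 ∧ Nat.Coprime y.1 q3
  · rw [if_pos hA]
    refine sum_congr rfl fun w' hw' => ?_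
    refine if_congr ?_ rfl rfl
    simp only
    rw [cond_iff p h hq3 hq hw hw']
    exact ⟨fun h => h.2, fun h => ⟨hA, h⟩⟩
  · rw [if_neg hA]
    refine sum_eq_zero fun w' hw' => ?_
    rw [if_neg]
    simp only
    rw [cond_iff p h hq3 hq hw hw']
    exact fun h => hA h.1

/-- the weight -/
noncomputable def Fw (η : ℤ) (x q3 : ℕ) (y : ℕ × ℕ) (s : ℝ) : ℂ :=
  (FF (4 * p.M / p.q1) η ((y.1 * y.2 * q3 : ℕ) * s) : ℂ) *
    ee ((η * p.k / (x * p.q1 * (y.1 * y.2 * q3 : ℕ))) / s)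

/-- the inner term -/
noncomputable def Gt (η : ℤ) (x q3 : ℕ) (y : ℕ × ℕ) (w' : ℕ) : ℂ :=
  (starRingEnd ℂ) (p.lam w') * Fw p η x q3 y w' *
    ph x (-(η * p.k)) (((p.q1 * q3 : ℕ) : ℤ) * ((y.1 * y.2 : ℕ) : ℤ) * (w' : ℤ))

lemma ph_zero (V : ℕ) (n : ℤ) : ph V 0 n = 1 := by
  unfold ph
  simp

lemma Xs_mem {x q3 : ℕ} {y : ℕ × ℕ} (hy : y ∈ Xs p x q3) : y.1 ∈ p.QQ ∧ y.2 ∈ p.W ∧
    Nat.Coprime x (y.1 * y.2) ∧ Nat.Coprime x q3 ∧ Nat.Coprime y.1 q3 := by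
  rw [Xs, mem_filter, mem_product] at hy
  exact ⟨hy.1.1, hy.1.2, hy.2⟩

lemma term_eq (hbrS : Stmt_brS) (h : p.Ok) {x q3 : ℕ} (hx : x ∈ p.XX) (hq3 : q3 ∈ p.QQ)
    {y : ℕ × ℕ} (hy : y ∈ Xs p x q3) {w' : ℕ} (hw' : w' ∈ Ws p x y) :
    p.cc (y.1, y.2, x) * (starRingEnd ℂ) (p.cc (q3, w', x)) *
      ((p.br (y.1, y.2, x) (q3, w', x) : ℝ) : ℂ) =
    ∑ η ∈ (Icc (-(p.H : ℤ)) p.H).erase 0,
      (p.b y.1 * p.lam y.2 * p.be x * (starRingEnd ℂ) (p.b q3 * p.be x)) * Gt p η x q3 y w' := by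
  obtain ⟨hq, hw, c1, c2, c3⟩ := Xs_mem p hy
  obtain ⟨hw'W, c4, c5⟩ := mem_filter.mp hw'
  have hC := (cond_iff p h hq3 hq hw hw'W).mpr ⟨⟨c1, c2, c3⟩, c4, c5⟩
  have hQ := h.hQ
  have hP := h.hP
  have hM := h.hM
  obtain ⟨-, q0, q1', -, -⟩ := h.hQQ _ hq
  obtain ⟨-, r0, r1, -, -⟩ := h.hQQ _ hq3
  obtain ⟨-, w0, w1⟩ := h.hW _ hw
  obtain ⟨-, v0, v1⟩ := h.hW _ hw'W
  obtain ⟨x0, x1, x2⟩ := h.hXX _ hx
  have hX := h.hX
  have n1 : 0 < y.1 := by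
    have : (0 : ℝ) < y.1 := by linarith
    exact_mod_cast this
  have n2 : 0 < y.2 := by
    have : (0 : ℝ) < y.2 := by linarith
    exact_mod_cast this
  have n3 : 0 < q3 := by
    have : (0 : ℝ) < q3 := by linarith
    exact_mod_cast this
  have n4 : 0 < w' := by
    have : (0 : ℝ) < w' := by linarith
    exact_mod_cast this
  have n5 : 0 < x := by
    have : (0 : ℝ) < x := by linarith
    exact_mod_cast this
  have hq1r : (1 : ℝ) ≤ p.q1 := by exact_mod_cast h.hq1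
  have b1 : ((y.1 * y.2 : ℕ) : ℝ) ≤ 4 * (p.Q * p.P) := by
    push_cast
    calc (y.1 : ℝ) * y.2 ≤ (2 * p.Q) * (2 * p.P) := by gcongr
      _ = _ := by ring
  have b2 : ((q3 * w' : ℕ) : ℝ) ≤ 4 * (p.Q * p.P) := by
    push_cast
    calc (q3 : ℝ) * w' ≤ (2 * p.Q) * (2 * p.P) := by gcongr
      _ = _ := by ring
  have hRM := h.hRM
  have e := hbrS (4 * p.M) (by linarith) p.k p.q1 (y.1 * y.2) x (q3 * w') x 0 p.H h.hq1
    (Nat.mul_pos n1 n2) (Nat.mul_pos n3 n4) n5 n5 x2 x2 hC.2.2 hC.1 hC.2.1 hC.2.1 (by simp)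
    (by
      rw [Nat.cast_mul]
      calc (p.q1 : ℝ) * ((y.1 * y.2 : ℕ) : ℝ) ≤ p.q1 * (4 * (p.Q * p.P)) := by gcongr
        _ = 4 * (p.q1 * p.Q * p.P) := by ring
        _ ≤ 4 * p.M := by linarith)
    (by
      rw [Nat.cast_mul]
      calc (p.q1 : ℝ) * ((q3 * w' : ℕ) : ℝ) ≤ p.q1 * (4 * (p.Q * p.P)) := by gcongr
        _ = 4 * (p.q1 * p.Q * p.P) := by ring
        _ ≤ 4 * p.M := by linarith)
    (by
      refine le_trans ?_ (Nat.le_ceil _)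
      rw [div_le_div_iff₀ (by linarith) (by linarith)]
      have b3 : (p.q1 : ℝ) * ((y.1 * y.2 : ℕ) : ℝ) * ((q3 * w' : ℕ) : ℝ) ≤
          p.q1 * (4 * (p.Q * p.P)) * (4 * (p.Q * p.P)) := by gcongr
      calc (p.q1 : ℝ) * ((y.1 * y.2 : ℕ) : ℝ) * ((q3 * w' : ℕ) : ℝ) * p.M ≤
          p.q1 * (4 * (p.Q * p.P)) * (4 * (p.Q * p.P)) * p.M := by gcongr
        _ = _ := by ring)
  unfold TD.br
  simp only
  rw [e, mul_sum]
  refine sum_congr rfl fun η _ => ?_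
  unfold TD.cc Gt Fw
  simp only
  have e1 : ((y.1 * y.2 : ℕ) : ℝ) * ((q3 * w' : ℕ) : ℝ) = ((y.1 * y.2 * q3 : ℕ) : ℝ) * (w' : ℝ) := by
    push_cast; ring
  have e2 : (η : ℝ) * p.k / (x * p.q1 * ((y.1 * y.2 : ℕ) : ℝ) * ((q3 * w' : ℕ) : ℝ)) =
      (η * p.k / (x * p.q1 * ((y.1 * y.2 * q3 : ℕ) : ℝ))) / w' := by
    rw [div_div]
    congr 1
    push_cast; ring
  have e3 : (p.q1 : ℤ) * ((y.1 * y.2 : ℕ) : ℤ) * ((q3 * w' : ℕ) : ℤ) =
      ((p.q1 * q3 : ℕ) : ℤ) * ((y.1 * y.2 : ℕ) : ℤ) * (w' : ℤ) := by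
    push_cast; ring
  have e4 : -(η * p.k * 0) = 0 := by ring
  rw [e1, e2, e3, e4, ph_zero, mul_one, map_mul, map_mul, map_mul]
  ring

lemma T_bound (hFF : Stmt_FFx) (hSC : Stmt_SC0F) (h : p.Ok)
    (hH : (p.H : ℝ) * |(p.k : ℝ)| ≤ p.Q * p.P) {x q3 : ℕ} (hx : x ∈ p.XX) (hq3 : q3 ∈ p.QQ)
    {η : ℤ} (hη : η ∈ (Icc (-(p.H : ℤ)) p.H).erase 0) :
    ∑ y ∈ Xs p x q3, ‖∑ w' ∈ Ws p x y, Gt p η x q3 y w'‖ ≤
      800 * (p.M / (p.q1 * p.Q)) * Real.sqrt p.R0 * (Real.sqrt (1 / p.P) +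
        Real.sqrt (((Int.gcd (-(η * p.k)) x : ℕ) : ℝ) / p.X)) := by
  have hQ := h.hQ
  have hP := h.hP
  have hM := h.hM
  have hX := h.hX
  have hXQ := h.hXQ
  have hq1r : (1 : ℝ) ≤ p.q1 := by exact_mod_cast h.hq1
  have hR1 : 1 ≤ p.R0 := by
    have h1 := h.hR0 1 le_rfl (by
      have : 1 ≤ p.Q * p.P := by nlinarith
      push_cast
      nlinarith)
    simpa using h1
  by_cases hcop : Nat.Coprime x q3
  swap
  · have hE : Xs p x q3 = ∅ := by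
      rw [Xs, filter_eq_empty_iff]
      exact fun y _ hc => hcop hc.2.1
    rw [hE, sum_empty]
    positivity
  obtain ⟨-, r0, r1, -, -⟩ := h.hQQ _ hq3
  obtain ⟨x0, x1, x2⟩ := h.hXX _ hx
  have hx0 : 0 < x := by
    have : (0 : ℝ) < x := by linarith
    exact_mod_cast this
  set B : ℝ := 32 * p.M / (p.q1 * (p.Q ^ 2 * p.P ^ 2)) with hBdef
  have hB0 : 0 < B := by positivity
  obtain ⟨hη0, hη1⟩ := mem_erase.mp hη
  obtain ⟨hη2, hη3⟩ := mem_Icc.mp hη1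
  have hηa : |(η : ℝ)| ≤ p.H := by
    rw [abs_le]
    constructor
    · exact_mod_cast hη2
    · exact_mod_cast hη3
  -- facts on the outer pairs
  have hout : ∀ y ∈ Xs p x q3, p.Q * p.P < ((y.1 * y.2 : ℕ) : ℝ) ∧
      ((y.1 * y.2 : ℕ) : ℝ) ≤ 4 * (p.Q * p.P) ∧ 0 < y.1 := by
    intro y hy
    obtain ⟨hq, hw, -, -, -⟩ := Xs_mem p hy
    obtain ⟨-, q0, q1', -, -⟩ := h.hQQ _ hq
    obtain ⟨-, w0, w1⟩ := h.hW _ hw
    refine ⟨?_, ?_, ?_⟩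
    · push_cast
      exact mul_lt_mul'' q0 w0 (by linarith) (by linarith)
    · push_cast
      calc (y.1 : ℝ) * y.2 ≤ (2 * p.Q) * (2 * p.P) := by gcongr
        _ = _ := by ring
    · have : (0 : ℝ) < y.1 := by linarith
      exact_mod_cast this
  -- the weights
  have hu : ∀ y ∈ Xs p x q3, 0 < ((y.1 * y.2 * q3 : ℕ) : ℝ) ∧
      8 * (4 * p.M / p.q1) / (((y.1 * y.2 * q3 : ℕ) : ℝ) * p.P) ≤ B ∧
      |(η : ℝ) * p.k / (x * p.q1 * ((y.1 * y.2 * q3 : ℕ) : ℝ))| ≤ p.P := by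
    intro y hy
    obtain ⟨o1, o2, -⟩ := hout y hy
    have hQP : 0 < p.Q * p.P := by positivity
    have u1 : p.Q ^ 2 * p.P ≤ ((y.1 * y.2 * q3 : ℕ) : ℝ) := by
      rw [Nat.cast_mul (y.1 * y.2) q3]
      calc p.Q ^ 2 * p.P = (p.Q * p.P) * p.Q := by ring
        _ ≤ ((y.1 * y.2 : ℕ) : ℝ) * q3 := by gcongr
    have u0 : 0 < ((y.1 * y.2 * q3 : ℕ) : ℝ) := lt_of_lt_of_le (by positivity) u1
    refine ⟨u0, ?_, ?_⟩
    · rw [hBdef]
      have e1 : 8 * (4 * p.M / p.q1) / (((y.1 * y.2 * q3 : ℕ) : ℝ) * p.P) =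
          32 * p.M / (p.q1 * (((y.1 * y.2 * q3 : ℕ) : ℝ) * p.P)) := by
        field_simp
        ring
      rw [e1]
      apply div_le_div_of_nonneg_left (by positivity) (by positivity)
      calc (p.q1 : ℝ) * (p.Q ^ 2 * p.P ^ 2) = p.q1 * (p.Q ^ 2 * p.P * p.P) := by ring
        _ ≤ p.q1 * (((y.1 * y.2 * q3 : ℕ) : ℝ) * p.P) := by gcongr
    · have hxr : (1 : ℝ) ≤ x := by exact_mod_cast hx0
      rw [abs_div, abs_mul, abs_of_pos (by positivity : 0 < (x : ℝ) * p.q1 *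
        ((y.1 * y.2 * q3 : ℕ) : ℝ)), div_le_iff₀ (by positivity)]
      have t1 : |(η : ℝ)| * |(p.k : ℝ)| ≤ p.Q * p.P := by
        refine le_trans ?_ hH
        gcongr
      have t2 : p.Q * p.P ≤ ((y.1 * y.2 * q3 : ℕ) : ℝ) := by
        refine le_trans ?_ u1
        nlinarith
      calc |(η : ℝ)| * |(p.k : ℝ)| ≤ ((y.1 * y.2 * q3 : ℕ) : ℝ) := t1.trans t2
        _ = 1 * (1 * 1 * ((y.1 * y.2 * q3 : ℕ) : ℝ)) := by ring
        _ ≤ p.P * (x * p.q1 * ((y.1 * y.2 * q3 : ℕ) : ℝ)) := by gcongr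
  have hsc := hSC p.W p.P hP (fun w hw => (h.hW w hw).2) x ⌊4 * (p.Q * p.P)⌋₊ hx0 (-(η * p.k))
    (((p.q1 * q3 : ℕ) : ℤ)) (by
      have : Int.gcd (((p.q1 * q3 : ℕ) : ℤ)) (x : ℤ) = Nat.gcd (p.q1 * q3) x := Int.gcd_natCast_natCast _ _
      rw [this]
      exact (Nat.Coprime.mul_right x2 hcop).symm)
    (fun w => (starRingEnd ℂ) (p.lam w)) (fun w => by
      rw [RCLike.norm_conj]; exact h.hlam w) (Xs p x q3) (fun y => y.1 * y.2) (fun y => y.2) p.R0 B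
    hB0.le (fun y hy => by
      obtain ⟨o1, o2, -⟩ := hout y hy
      refine ⟨?_, Nat.le_floor o2, (Xs_mem p hy).2.2.1.symm⟩
      have : (0 : ℝ) < ((y.1 * y.2 : ℕ) : ℝ) := lt_trans (by positivity) o1
      exact_mod_cast this)
    (fun n => by
      by_cases hne : ((Xs p x q3).filter (fun y => y.1 * y.2 = n)).Nonempty
      · obtain ⟨y₀, hy₀⟩ := hne
        obtain ⟨hy₁, hy₂⟩ := mem_filter.mp hy₀
        obtain ⟨o1, o2, -⟩ := hout y₀ hy₁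
        rw [hy₂] at o1 o2
        have hn0 : 1 ≤ n := by
          have : (0 : ℝ) < (n : ℝ) := lt_trans (by positivity) o1
          exact_mod_cast this
        have hdiv := h.hR0 n hn0 (by
          have : 0 < p.Q * p.P := by positivity
          nlinarith)
        refine le_trans ?_ hdiv
        have hcard : ((Xs p x q3).filter (fun y => y.1 * y.2 = n)).card ≤ n.divisors.card := by
          apply card_le_card_of_injOn (fun y => y.1)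
          · intro y hy
            have hy' := mem_filter.mp hy
            rw [mem_coe, Nat.mem_divisors]
            exact ⟨⟨y.2, hy'.2.symm⟩, by omega⟩
          · intro y hy z hz hyz
            have hy' := mem_filter.mp hy
            have hz' := mem_filter.mp hz
            simp only at hyz
            have hpos := (hout y hy'.1).2.2
            have : y.1 * y.2 = y.1 * z.2 := by rw [hy'.2, hyz, hz'.2]
            exact Prod.ext hyz (Nat.eq_of_mul_eq_mul_left hpos this)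
        exact_mod_cast hcard
      · rw [not_nonempty_iff_eq_empty.mp hne, card_empty, Nat.cast_zero]
        linarith)
    (fun y s => Fw p η x q3 y s) (fun y hy s hs1 hs2 => by
      obtain ⟨u0, u1, u2⟩ := hu y hy
      exact ((hFF (4 * p.M / p.q1) _ p.P _ (by positivity) u0 hP u2 η).1 s hs1 hs2).trans u1)
    (fun y hy s t hs1 hs2 ht1 ht2 => by
      obtain ⟨u0, u1, u2⟩ := hu y hy
      refine ((hFF (4 * p.M / p.q1) _ p.P _ (by positivity) u0 hP u2 η).2 s t hs1 hs2 ht1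
        ht2).trans ?_
      gcongr)
  set T : ℝ := ∑ y ∈ Xs p x q3, ‖∑ w' ∈ Ws p x y, Gt p η x q3 y w'‖ with hT
  have hT0 : 0 ≤ T := sum_nonneg fun y _ => norm_nonneg _
  have hsc' : T ^ 2 ≤ 2 * (Xs p x q3).card * (6 * B ^ 2 * p.R0 * (((⌊4 * (p.Q * p.P)⌋₊ : ℝ) + x) *
      (2 * p.P + 2 * p.P * (p.P * (Int.gcd (-(η * p.k)) x : ℕ) / x)))) +
        2 * ((Xs p x q3).card : ℝ) ^ 2 * B ^ 2 := hsc
  set g : ℝ := ((Int.gcd (-(η * p.k)) x : ℕ) : ℝ) with hg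
  have hg0 : 0 ≤ g := Nat.cast_nonneg _
  have hN : (⌊4 * (p.Q * p.P)⌋₊ : ℝ) ≤ 4 * (p.Q * p.P) := Nat.floor_le (by positivity)
  have hcX : ((Xs p x q3).card : ℝ) ≤ 4 * (p.Q * p.P) := by
    have c1 : (p.QQ.card : ℝ) ≤ 2 * p.Q := card_dyadic hQ fun q hq =>
      ⟨(h.hQQ q hq).2.1, (h.hQQ q hq).2.2.1⟩
    have c2 : (p.W.card : ℝ) ≤ 2 * p.P := card_dyadic hP fun w hw =>
      ⟨(h.hW w hw).2.1, (h.hW w hw).2.2⟩
    have c3 : (Xs p x q3).card ≤ p.QQ.card * p.W.card := by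
      rw [← card_product]
      exact card_filter_le _ _
    calc ((Xs p x q3).card : ℝ) ≤ ((p.QQ.card * p.W.card : ℕ) : ℝ) := by exact_mod_cast c3
      _ = (p.QQ.card : ℝ) * p.W.card := by push_cast; ring
      _ ≤ 2 * p.Q * (2 * p.P) := by gcongr
      _ = _ := by ring
  have hgx : g / x ≤ g / p.X := div_le_div_of_nonneg_left hg0 (by linarith) x0.le
  have hmain : T ^ 2 ≤ (25 * (B * (p.Q * p.P)) * Real.sqrt p.R0 * (Real.sqrt p.P +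
      p.P * Real.sqrt (g / p.X))) ^ 2 := by
    have m1 : T ^ 2 ≤ 2 * (4 * (p.Q * p.P)) * (6 * B ^ 2 * p.R0 * ((4 * (p.Q * p.P) +
        2 * (p.Q * p.P)) * (2 * p.P + 2 * p.P * (p.P * (g / p.X))))) +
        2 * (4 * (p.Q * p.P)) ^ 2 * B ^ 2 := by
      refine hsc'.trans ?_
      have m2 : (x : ℝ) ≤ 2 * (p.Q * p.P) := by linarith
      rw [mul_div_assoc]
      gcongr
    have m3 : 1 ≤ p.R0 * (p.P * (1 + p.P * (g / p.X))) := by
      have m4 : 0 ≤ p.P * (g / p.X) := by positivity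
      have m5 : 1 ≤ p.P * (1 + p.P * (g / p.X)) := by nlinarith
      nlinarith
    have m6 : p.P * (1 + p.P * (g / p.X)) ≤ (Real.sqrt p.P + p.P * Real.sqrt (g / p.X)) ^ 2 := by
      have s1 : Real.sqrt p.P ^ 2 = p.P := Real.sq_sqrt (by linarith)
      have s2 : Real.sqrt (g / p.X) ^ 2 = g / p.X := Real.sq_sqrt (by positivity)
      have s3 : 0 ≤ Real.sqrt p.P * (p.P * Real.sqrt (g / p.X)) := by positivity
      calc p.P * (1 + p.P * (g / p.X)) = Real.sqrt p.P ^ 2 + p.P ^ 2 * Real.sqrt (g / p.X) ^ 2 := by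
            rw [s1, s2]; ring
        _ ≤ _ := by nlinarith
    have s4 : Real.sqrt p.R0 ^ 2 = p.R0 := Real.sq_sqrt (by linarith)
    calc T ^ 2 ≤ (B * (p.Q * p.P)) ^ 2 * (576 * (p.R0 * (p.P * (1 + p.P * (g / p.X)))) + 32 * 1) := by
          refine m1.trans (le_of_eq ?_)
          ring
      _ ≤ (B * (p.Q * p.P)) ^ 2 * (576 * (p.R0 * (p.P * (1 + p.P * (g / p.X)))) +
          32 * (p.R0 * (p.P * (1 + p.P * (g / p.X))))) := by gcongr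
      _ = 608 * ((B * (p.Q * p.P)) ^ 2 * (p.R0 * (p.P * (1 + p.P * (g / p.X))))) := by ring
      _ ≤ 625 * ((B * (p.Q * p.P)) ^ 2 * (p.R0 * (Real.sqrt p.P +
          p.P * Real.sqrt (g / p.X)) ^ 2)) := by gcongr; norm_num
      _ = (25 * (B * (p.Q * p.P)) * Real.sqrt p.R0 * (Real.sqrt p.P +
          p.P * Real.sqrt (g / p.X))) ^ 2 := by
          conv_lhs => rw [← s4]
          ring
  have hfin : T ≤ 25 * (B * (p.Q * p.P)) * Real.sqrt p.R0 * (Real.sqrt p.P +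
      p.P * Real.sqrt (g / p.X)) := by
    have hr0 : 0 ≤ 25 * (B * (p.Q * p.P)) * Real.sqrt p.R0 * (Real.sqrt p.P +
      p.P * Real.sqrt (g / p.X)) := by positivity
    exact (sq_le_sq₀ hT0 hr0).mp hmain
  refine hfin.trans (le_of_eq ?_)
  have hP0 : 0 < p.P := by linarith
  have hPs : Real.sqrt p.P = p.P * Real.sqrt (1 / p.P) := by
    rw [Real.sqrt_div zero_le_one, Real.sqrt_one]
    have := Real.mul_self_sqrt hP0.le
    have h0 : Real.sqrt p.P ≠ 0 := (Real.sqrt_pos.mpr hP0).ne'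
    field_simp
    nlinarith
  rw [hPs, ← mul_add]
  have hB1 : B * (p.Q * p.P) * p.P = 32 * (p.M / (p.q1 * p.Q)) := by
    rw [hBdef]
    field_simp
  calc 25 * (B * (p.Q * p.P)) * Real.sqrt p.R0 * (p.P * (Real.sqrt (1 / p.P) +
      Real.sqrt (g / p.X))) = 25 * (B * (p.Q * p.P) * p.P) * Real.sqrt p.R0 *
        (Real.sqrt (1 / p.P) + Real.sqrt (g / p.X)) := by ring
    _ = 800 * (p.M / (p.q1 * p.Q)) * Real.sqrt p.R0 * (Real.sqrt (1 / p.P) +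
        Real.sqrt (g / p.X)) := by rw [hB1]; ring

/-- block T4 -/
theorem t4 (hbrS : Stmt_brS) (hFF : Stmt_FFx) (hSC : Stmt_SC0F) (h : p.Ok)
    (hH : (p.H : ℝ) * |(p.k : ℝ)| ≤ p.Q * p.P) :
    ‖p.Sd‖ ≤ 6400 * p.H * p.X * p.M * p.R0 ^ 2 *
      (Real.sqrt (1 / p.P) + Real.sqrt (|(p.k : ℝ)| / p.X)) := by
  have hQ := h.hQ
  have hP := h.hP
  have hM := h.hM
  have hX := h.hX
  have hXQ := h.hXQ
  have hq1r : (1 : ℝ) ≤ p.q1 := by exact_mod_cast h.hq1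
  have hR1 : 1 ≤ p.R0 := by
    have h1 := h.hR0 1 le_rfl (by
      have : 1 ≤ p.Q * p.P := by nlinarith
      push_cast
      nlinarith)
    simpa using h1
  have hk0 : 0 ≤ |(p.k : ℝ)| := abs_nonneg _
  set C : ℝ := 800 * (p.M / (p.q1 * p.Q)) * Real.sqrt p.R0 with hC
  have hC0 : 0 ≤ C := by positivity
  have e1 : p.Sd = ∑ x ∈ p.XX, ∑ q3 ∈ p.QQ, ∑ η ∈ (Icc (-(p.H : ℤ)) p.H).erase 0,
      ∑ y ∈ Xs p x q3, (p.b y.1 * p.lam y.2 * p.be x * (starRingEnd ℂ) (p.b q3 * p.be x)) *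
        ∑ w' ∈ Ws p x y, Gt p η x q3 y w' := by
    unfold TD.Sd
    rw [reorg p h]
    refine sum_congr rfl fun x hx => sum_congr rfl fun q3 hq3 => ?_
    rw [sum_comm]
    refine sum_congr rfl fun y hy => ?_
    simp_rw [mul_sum]
    rw [sum_comm]
    refine sum_congr rfl fun w' hw' => ?_
    exact term_eq p hbrS h hx hq3 hy hw'
  have e2 : ∀ x ∈ p.XX, ∀ q3 ∈ p.QQ, ‖∑ η ∈ (Icc (-(p.H : ℤ)) p.H).erase 0,
      ∑ y ∈ Xs p x q3, (p.b y.1 * p.lam y.2 * p.be x * (starRingEnd ℂ) (p.b q3 * p.be x)) *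
        ∑ w' ∈ Ws p x y, Gt p η x q3 y w'‖ ≤ C * (2 * p.H * (p.R0 *
          (Real.sqrt (1 / p.P) + Real.sqrt (|(p.k : ℝ)| / p.X)))) := by
    intro x hx q3 hq3
    obtain ⟨x0, x1, x2⟩ := h.hXX _ hx
    have hx0 : 0 < x := by
      have : (0 : ℝ) < x := by linarith
      exact_mod_cast this
    have hη : ∀ η ∈ (Icc (-(p.H : ℤ)) p.H).erase 0, ‖∑ y ∈ Xs p x q3,
        (p.b y.1 * p.lam y.2 * p.be x * (starRingEnd ℂ) (p.b q3 * p.be x)) *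
        ∑ w' ∈ Ws p x y, Gt p η x q3 y w'‖ ≤ C * (Real.sqrt (1 / p.P) +
          Real.sqrt (|(p.k : ℝ)| / p.X) * Real.sqrt ((Int.gcd η x : ℕ) : ℝ)) := by
      intro η hη
      refine (norm_sum_le _ _).trans ?_
      have t1 : ∑ y ∈ Xs p x q3, ‖(p.b y.1 * p.lam y.2 * p.be x *
          (starRingEnd ℂ) (p.b q3 * p.be x)) * ∑ w' ∈ Ws p x y, Gt p η x q3 y w'‖ ≤
          ∑ y ∈ Xs p x q3, ‖∑ w' ∈ Ws p x y, Gt p η x q3 y w'‖ := by
        refine sum_le_sum fun y _ => ?_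
        rw [norm_mul]
        refine mul_le_of_le_one_left (norm_nonneg _) ?_
        rw [norm_mul, norm_mul, norm_mul, RCLike.norm_conj, norm_mul]
        have c1 := h.hb y.1
        have c2 := h.hlam y.2
        have c3 := h.hbe x
        have c4 := h.hb q3
        calc ‖p.b y.1‖ * ‖p.lam y.2‖ * ‖p.be x‖ * (‖p.b q3‖ * ‖p.be x‖) ≤
            1 * 1 * 1 * (1 * 1) := by gcongr
          _ = 1 := by norm_num
      refine t1.trans ((T_bound p hFF hSC h hH hx hq3 hη).trans ?_)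
      rw [← hC]
      refine mul_le_mul_of_nonneg_left ?_ hC0
      rw [← Real.sqrt_mul (by positivity)]
      have t2 := gcd_mul_le η p.k x hx0 h.hk0
      gcongr
      calc ((Int.gcd (-(η * p.k)) x : ℕ) : ℝ) / p.X ≤
          |(p.k : ℝ)| * ((Int.gcd η x : ℕ) : ℝ) / p.X := by gcongr
        _ = |(p.k : ℝ)| / p.X * ((Int.gcd η x : ℕ) : ℝ) := by ring
    refine (norm_sum_le _ _).trans ((sum_le_sum hη).trans ?_)
    rw [← mul_sum]
    refine mul_le_mul_of_nonneg_left ?_ hC0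
    rw [sum_add_distrib, ← mul_sum, sum_const, card_pm, nsmul_eq_mul]
    have t3 := sum_gcd p.H x hx0
    have t4 : (x.divisors.card : ℝ) ≤ p.R0 := h.hR0 x hx0 (by
      have : 0 < p.Q * p.P := by positivity
      nlinarith)
    have s1 : 0 ≤ Real.sqrt (1 / p.P) := Real.sqrt_nonneg _
    have s2 : 0 ≤ Real.sqrt (|(p.k : ℝ)| / p.X) := Real.sqrt_nonneg _
    have hH0 : (0 : ℝ) ≤ p.H := Nat.cast_nonneg _
    calc ((2 * p.H : ℕ) : ℝ) * Real.sqrt (1 / p.P) + Real.sqrt (|(p.k : ℝ)| / p.X) *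
          ∑ η ∈ (Icc (-(p.H : ℤ)) p.H).erase 0, Real.sqrt ((Int.gcd η x : ℕ) : ℝ) ≤
        2 * p.H * (p.R0 * Real.sqrt (1 / p.P)) + Real.sqrt (|(p.k : ℝ)| / p.X) *
          (2 * p.H * p.R0) := by
          refine add_le_add ?_ (mul_le_mul_of_nonneg_left (t3.trans (by gcongr)) s2)
          push_cast
          refine mul_le_mul_of_nonneg_left ?_ (by positivity)
          nlinarith
      _ = 2 * p.H * (p.R0 * (Real.sqrt (1 / p.P) + Real.sqrt (|(p.k : ℝ)| / p.X))) := by ring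
  have c1 : (p.QQ.card : ℝ) ≤ 2 * p.Q := card_dyadic hQ fun q hq =>
      ⟨(h.hQQ q hq).2.1, (h.hQQ q hq).2.2.1⟩
  have c2 : (p.XX.card : ℝ) ≤ 2 * p.X := card_dyadic hX fun x hx =>
      ⟨(h.hXX x hx).1, (h.hXX x hx).2.1⟩
  set D : ℝ := C * (2 * p.H * (p.R0 * (Real.sqrt (1 / p.P) + Real.sqrt (|(p.k : ℝ)| / p.X))))
    with hD
  have hD0 : 0 ≤ D := by positivity
  have hs : 0 ≤ Real.sqrt (1 / p.P) + Real.sqrt (|(p.k : ℝ)| / p.X) := by positivity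
  have hsR : Real.sqrt p.R0 ≤ p.R0 := by
    rw [Real.sqrt_le_left (by linarith)]
    nlinarith
  have hMq : p.M / p.q1 ≤ p.M := div_le_self (by linarith) hq1r
  calc ‖p.Sd‖ ≤ ∑ x ∈ p.XX, ∑ q3 ∈ p.QQ, D := by
        rw [e1]
        refine (norm_sum_le _ _).trans (sum_le_sum fun x hx => ?_)
        exact (norm_sum_le _ _).trans (sum_le_sum fun q3 hq3 => e2 x hx q3 hq3)
    _ = p.XX.card * (p.QQ.card * D) := by
        rw [sum_const, sum_const, nsmul_eq_mul, nsmul_eq_mul]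
    _ ≤ 2 * p.X * (2 * p.Q * D) := by gcongr
    _ = 6400 * p.H * p.X * (p.M / p.q1) * (Real.sqrt p.R0 * p.R0) *
        (Real.sqrt (1 / p.P) + Real.sqrt (|(p.k : ℝ)| / p.X)) := by
        rw [hD, hC]
        have : p.Q ≠ 0 := by linarith
        field_simp
        ring
    _ ≤ 6400 * p.H * p.X * p.M * (p.R0 * p.R0) *
        (Real.sqrt (1 / p.P) + Real.sqrt (|(p.k : ℝ)| / p.X)) := by gcongr
    _ = _ := by ring

end

end Pool.Agent.Helper64.AP
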