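import Pool.Agent.Helper56.AP.Stmts
import Pool.Agent.Helper3.AP.BtSum
import Pool.Agent.Helper64.AP.UHs

/-!
# Project A' (MP_8958e8): the terms with moduli below `T^(491/1000)` (from helper3's `bterms`), splitting of `UU`
-/

set_option autoImplicit false

open Finset Filter
open Pool.Agent.AP

namespace Pool.Agent.Helper64.Bt

/-! ### sizes of `u / φ(u)` and `∑ 1/φ(u)` -/

lemma tot_ge (u : ℕ) : (u : ℝ) ≤ 2 ^ u.primeFactors.card * Nat.totient u := by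
  have h1 := Nat.totient_eq_mul_prod_factors u
  have h2 : (Nat.totient u : ℝ) = u * ∏ p ∈ u.primeFactors, (1 - (p : ℝ)⁻¹) := by
    have := congrArg (fun x : ℚ => (x : ℝ)) h1
    simpa using this
  have h3 : ((1 : ℝ) / 2) ^ u.primeFactors.card ≤ ∏ p ∈ u.primeFactors, (1 - (p : ℝ)⁻¹) := by
    rw [← prod_const]
    refine prod_le_prod (fun _ _ => by norm_num) fun p hp => ?_
    have hp2 : (2 : ℝ) ≤ p := by exact_mod_cast (Nat.prime_of_mem_primeFactors hp).two_le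
    have : (p : ℝ)⁻¹ ≤ 1 / 2 := by
      rw [inv_eq_one_div]
      exact one_div_le_one_div_of_le (by norm_num) hp2
    linarith
  have hu0 : (0 : ℝ) ≤ u := Nat.cast_nonneg _
  rw [h2]
  have h4 : (2 : ℝ) ^ u.primeFactors.card * ((1 : ℝ) / 2) ^ u.primeFactors.card = 1 := by
    rw [← mul_pow]
    norm_num
  calc (u : ℝ) = u * (2 ^ u.primeFactors.card * ((1 : ℝ) / 2) ^ u.primeFactors.card) := by rw [h4, mul_one]
    _ = 2 ^ u.primeFactors.card * (u * ((1 : ℝ) / 2) ^ u.primeFactors.card) := by ring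
    _ ≤ 2 ^ u.primeFactors.card * (u * ∏ p ∈ u.primeFactors, (1 - (p : ℝ)⁻¹)) := by gcongr

lemma PU_pos {J : List (Finset ℕ)} (hp : ∀ I ∈ J, ∀ p ∈ I, 0 < p) : ∀ u ∈ PU J, 0 < u := by
  induction J with
  | nil =>
    intro u hu
    rw [PU, mem_singleton] at hu
    omega
  | cons I J ih =>
    intro u hu
    rw [PU, mem_image] at hu
    obtain ⟨⟨a, b⟩, hab, rfl⟩ := hu
    obtain ⟨h1, h2⟩ := mem_product.mp hab
    exact Nat.mul_pos (hp I List.mem_cons_self a h1)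
      (ih (fun I' hI' => hp I' (List.mem_cons_of_mem _ hI')) b h2)

/-- `∑_{u ∈ PU J} 1/φ(u) ≤ ∏ c_I` -/
lemma PU_tot {J : List (Finset ℕ)} (hp : ∀ I ∈ J, ∀ p ∈ I, p.Prime) :
    ∑ u ∈ PU J, 1 / (Nat.totient u : ℝ) ≤ (J.map cI).prod := by
  induction J with
  | nil => simp [PU]
  | cons I J ih =>
    have ih' := ih fun I' hI' => hp I' (List.mem_cons_of_mem _ hI')
    have hp' := hp I List.mem_cons_self
    rw [PU, List.map_cons, List.prod_cons]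
    refine (sum_image_le_of_nonneg fun u _ => by positivity).trans ?_
    rw [sum_product]
    simp only
    have hc : 0 ≤ cI I := sum_nonneg fun p hp'' => by
      have : (2 : ℝ) ≤ p := by exact_mod_cast (hp' p hp'').two_le
      have : (0 : ℝ) < p - 1 := by linarith
      positivity
    have hpos : ∀ u ∈ PU J, 0 < u := PU_pos fun I' hI' p hpI =>
      (hp I' (List.mem_cons_of_mem _ hI') p hpI).pos
    calc ∑ p ∈ I, ∑ u ∈ PU J, 1 / (Nat.totient (p * u) : ℝ) ≤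
        ∑ p ∈ I, ∑ u ∈ PU J, 1 / ((p : ℝ) - 1) * (1 / (Nat.totient u : ℝ)) := by
          refine sum_le_sum fun p hpI => sum_le_sum fun u hu => ?_
          have h1 := Nat.totient_super_multiplicative p u
          rw [Nat.totient_prime (hp' p hpI)] at h1
          have h2 : ((p : ℝ) - 1) * Nat.totient u ≤ Nat.totient (p * u) := by
            have h3 : (((p - 1) * Nat.totient u : ℕ) : ℝ) ≤ Nat.totient (p * u) := by exact_mod_cast h1
            rw [Nat.cast_mul, Nat.cast_sub (hp' p hpI).one_lt.le, Nat.cast_one] at h3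
            exact h3
          have h4 : (2 : ℝ) ≤ p := by exact_mod_cast (hp' p hpI).two_le
          have h5 : (0 : ℝ) < Nat.totient u := by exact_mod_cast Nat.totient_pos.mpr (hpos u hu)
          have h6 : 0 < ((p : ℝ) - 1) * Nat.totient u := mul_pos (by linarith) h5
          rw [div_mul_div_comm, one_mul]
          exact one_div_le_one_div_of_le h6 h2
      _ = cI I * ∑ u ∈ PU J, 1 / (Nat.totient u : ℝ) := by
          rw [cI, sum_mul_sum]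
      _ ≤ cI I * (J.map cI).prod := by gcongr

/-! ### one modulus: helper3's form -/

lemma dvd_iff (u : ℕ) (k : ℤ) (m l : ℕ) :
    (-(k : ZMod (1 * u)) = (m : ZMod (1 * u)) * l) ↔ (u : ℤ) ∣ (m : ℤ) * l + k := by
  have h1 := ZMod.intCast_zmod_eq_zero_iff_dvd ((m : ℤ) * l + k) (1 * u)
  have h2 : (((1 * u : ℕ) : ℤ)) = u := by push_cast; ring
  rw [h2] at h1
  rw [← h1]
  push_cast
  constructor
  · intro h
    rw [← h]
    ring
  · intro h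
    linear_combination -h

lemma conv (u : ℕ) (k : ℤ) {M L M₀ L₀ : ℕ} (hM : M₀ ≤ M) (hL : L₀ ≤ L) (α β : ℕ → ℝ) :
    |∑ m ∈ Ioc M₀ M, ∑ l ∈ Ioc L₀ L, α m * β l *
      ((if (u : ℤ) ∣ (m : ℤ) * l + k then (1 : ℝ) else 0) - 1 / u)| =
    ‖∑ m ∈ Ioc M₀ (M₀ + (M - M₀)), ∑ l ∈ Ioc L₀ (L₀ + (L - L₀)),
        (α m : ℂ) * (β l : ℂ) * (if ((-k : ℤ) : ZMod (1 * u)) = (m : ZMod (1 * u)) * l then 1 else 0) -
      (u : ℂ)⁻¹ * ∑ m ∈ Ioc M₀ (M₀ + (M - M₀)), ∑ l ∈ Ioc L₀ (L₀ + (L - L₀)),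
        (α m : ℂ) * (β l : ℂ) * (if ((-k : ℤ) : ZMod 1) = (m : ZMod 1) * l then 1 else 0)‖ := by
  rw [Nat.add_sub_cancel' hM, Nat.add_sub_cancel' hL, ← Real.norm_eq_abs, ← Complex.norm_real]
  congr 1
  push_cast
  rw [mul_sum, ← sum_sub_distrib]
  refine sum_congr rfl fun m _ => ?_
  rw [mul_sum, ← sum_sub_distrib]
  refine sum_congr rfl fun l _ => ?_
  have h1 : -(k : ZMod 1) = (m : ZMod 1) * l := Subsingleton.elim _ _
  rw [if_pos h1]
  simp only [dvd_iff u k m l]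
  split_ifs <;> push_cast <;> ring

/-- the general bound -/
theorem core {S : Finset ℕ} {Z X : ℕ} (hZ1 : 1 ≤ Z) (hX : 1 ≤ X) {k : ℤ}
    (hS : ∀ u ∈ S, 0 < u ∧ u ≤ X ∧ IsCoprime k (u : ℤ) ∧ ∀ p : ℕ, p.Prime → p ∣ u → Z ≤ p)
    {c : ℕ → ℝ} {C : ℝ} (hC : 0 ≤ C) (hc : ∀ u ∈ S, |c u| ≤ C) {M L M₀ L₀ : ℕ} (hM : M₀ ≤ M) (hL : L₀ ≤ L)
    {α β : ℕ → ℝ} (hα : ∀ m, |α m| ≤ 1) (hβ : ∀ l, |β l| ≤ 1) :
    |∑ m ∈ Ioc M₀ M, ∑ l ∈ Ioc L₀ L, α m * β l *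
      ∑ u ∈ S, c u * ((if (u : ℤ) ∣ (m : ℤ) * l + k then (1 : ℝ) else 0) - 1 / u)| ≤
      C * (40 * (1 + Real.log X) ^ 3 *
        (X * (Real.sqrt M * Real.sqrt L) + M * Real.sqrt L + L * Real.sqrt M + M * L / Z)) := by
  have h1 : ∑ m ∈ Ioc M₀ M, ∑ l ∈ Ioc L₀ L, α m * β l *
      ∑ u ∈ S, c u * ((if (u : ℤ) ∣ (m : ℤ) * l + k then (1 : ℝ) else 0) - 1 / u) =
      ∑ u ∈ S, c u * ∑ m ∈ Ioc M₀ M, ∑ l ∈ Ioc L₀ L, α m * β l *
        ((if (u : ℤ) ∣ (m : ℤ) * l + k then (1 : ℝ) else 0) - 1 / u) := by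
    simp_rw [mul_sum]
    rw [sum_comm]
    have e : ∀ u m l, c u * (α m * β l * ((if (u : ℤ) ∣ (m : ℤ) * l + k then (1 : ℝ) else 0) - 1 / u)) =
      α m * β l * (c u * ((if (u : ℤ) ∣ (m : ℤ) * l + k then (1 : ℝ) else 0) - 1 / u)) := by
      intro u m l; ring
    simp_rw [e]
    calc _ = ∑ l ∈ Ioc L₀ L, ∑ u ∈ S, ∑ m ∈ Ioc M₀ M, α m * β l * (c u *
        ((if (u : ℤ) ∣ (m : ℤ) * l + k then (1 : ℝ) else 0) - 1 / u)) :=
          sum_congr rfl fun l _ => sum_comm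
      _ = ∑ u ∈ S, ∑ l ∈ Ioc L₀ L, ∑ m ∈ Ioc M₀ M, α m * β l * (c u *
        ((if (u : ℤ) ∣ (m : ℤ) * l + k then (1 : ℝ) else 0) - 1 / u)) := sum_comm
      _ = _ := sum_congr rfl fun u _ => sum_comm
  have hlog : 0 ≤ Real.log X := Real.log_nonneg (by exact_mod_cast hX)
  have hZ0 : (0 : ℝ) < Z := by exact_mod_cast hZ1
  have h2 := Pool.Agent.Helper3.AP.bterms (d := 1) (Z := Z) (X := X) (M0 := M₀) (M := M - M₀) (L0 := L₀)
    (L := L - L₀) one_ne_zero hZ1 hX (k := -k) S (fun u hu => by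
      obtain ⟨a1, a2, a3, a4⟩ := hS u hu
      refine ⟨a1.ne', Nat.coprime_one_left u, by rw [one_mul]; exact a2, ?_, a4⟩
      rw [one_mul]
      exact a3.neg_left) (a := fun m => (α m : ℂ)) (b := fun l => (β l : ℂ))
      (fun n => by rw [Complex.norm_real]; exact hα n) (fun n => by rw [Complex.norm_real]; exact hβ n)
  have h3 : ∑ u ∈ S, |∑ m ∈ Ioc M₀ M, ∑ l ∈ Ioc L₀ L, α m * β l *
        ((if (u : ℤ) ∣ (m : ℤ) * l + k then (1 : ℝ) else 0) - 1 / u)| ≤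
      40 * (1 + Real.log X) ^ 3 *
        (X * (Real.sqrt M * Real.sqrt L) + M * Real.sqrt L + L * Real.sqrt M + M * L / Z) := by
    have e1 : ∑ u ∈ S, |∑ m ∈ Ioc M₀ M, ∑ l ∈ Ioc L₀ L, α m * β l *
        ((if (u : ℤ) ∣ (m : ℤ) * l + k then (1 : ℝ) else 0) - 1 / u)| ≤
      40 * (1 + Real.log X) ^ 3 *
        (X * (Real.sqrt ((M - M₀ : ℕ) : ℝ) * Real.sqrt ((L - L₀ : ℕ) : ℝ)) +
          ((M - M₀ : ℕ) : ℝ) * Real.sqrt ((L - L₀ : ℕ) : ℝ) + ((L - L₀ : ℕ) : ℝ) * Real.sqrt ((M - M₀ : ℕ) : ℝ) +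
          ((M - M₀ : ℕ) : ℝ) * ((L - L₀ : ℕ) : ℝ) / Z) := by
      refine le_trans (le_of_eq ?_) h2
      exact sum_congr rfl fun u _ => conv u k hM hL α β
    refine e1.trans ?_
    have m1 : ((M - M₀ : ℕ) : ℝ) ≤ M := by exact_mod_cast Nat.sub_le _ _
    have m2 : ((L - L₀ : ℕ) : ℝ) ≤ L := by exact_mod_cast Nat.sub_le _ _
    gcongr
  rw [h1]
  refine (abs_sum_le_sum_abs _ _).trans ?_
  calc ∑ u ∈ S, |c u * ∑ m ∈ Ioc M₀ M, ∑ l ∈ Ioc L₀ L, α m * β l *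
        ((if (u : ℤ) ∣ (m : ℤ) * l + k then (1 : ℝ) else 0) - 1 / u)| ≤
      ∑ u ∈ S, C * |∑ m ∈ Ioc M₀ M, ∑ l ∈ Ioc L₀ L, α m * β l *
        ((if (u : ℤ) ∣ (m : ℤ) * l + k then (1 : ℝ) else 0) - 1 / u)| := by
        refine sum_le_sum fun u hu => ?_
        rw [abs_mul]
        exact mul_le_mul_of_nonneg_right (hc u hu) (abs_nonneg _)
    _ = C * ∑ u ∈ S, |∑ m ∈ Ioc M₀ M, ∑ l ∈ Ioc L₀ L, α m * β l *
        ((if (u : ℤ) ∣ (m : ℤ) * l + k then (1 : ℝ) else 0) - 1 / u)| := by rw [mul_sum]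
    _ ≤ _ := by gcongr

/-! ### the splitting of `UU` -/

/-- the structured moduli, with the model on a part `J₂` only -/
noncomputable def VV (J₁ J₂ : List (Finset ℕ)) (n : ℤ) : ℝ :=
  ∑ u₁ ∈ PU J₁, ∑ u₂ ∈ PU J₂, (u₁ : ℝ) / Nat.totient u₁ * ((u₂ : ℝ) / Nat.totient u₂) *
    ((if ((u₁ * u₂ : ℕ) : ℤ) ∣ n then (1 : ℝ) else 0) - (1 / u₂) * (if (u₁ : ℤ) ∣ n then (1 : ℝ) else 0))

lemma PU_coprime {J₁ J₂ : List (Finset ℕ)} (hp : ∀ I ∈ J₁ ++ J₂, ∀ p ∈ I, p.Prime)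
    (hd : (J₁ ++ J₂).Pairwise (fun I J => Disjoint I J)) : ∀ u₁ ∈ PU J₁, ∀ u₂ ∈ PU J₂, Nat.Coprime u₁ u₂ := by
  intro u₁ h₁ u₂ h₂
  rw [Nat.coprime_iff_gcd_eq_one]
  by_contra hne
  obtain ⟨p, hpp, hpg⟩ := Nat.exists_prime_and_dvd hne
  obtain ⟨I, hI, hpI⟩ := Pool.Agent.Helper64.UHs.PU_prime
    (fun I hI => hp I (List.mem_append_left _ hI)) u₁ h₁ p hpp (hpg.trans (Nat.gcd_dvd_left _ _))
  obtain ⟨I', hI', hpI'⟩ := Pool.Agent.Helper64.UHs.PU_prime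
    (fun I hI => hp I (List.mem_append_right _ hI)) u₂ h₂ p hpp (hpg.trans (Nat.gcd_dvd_right _ _))
  rw [List.pairwise_append] at hd
  exact disjoint_left.mp (hd.2.2 I hI I' hI') hpI hpI'

theorem UU_split (hsp : Stmt_PU_split) {J₁ J₂ Is : List (Finset ℕ)} (hperm : Is.Perm (J₁ ++ J₂))
    (hp : ∀ I ∈ Is, ∀ p ∈ I, p.Prime) (hd : Is.Pairwise (fun I J => Disjoint I J)) (n : ℤ) :
    UU Is n = VV J₁ J₂ n + (∑ u₂ ∈ PU J₂, 1 / (Nat.totient u₂ : ℝ)) * UU J₁ n := by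
  have hp' : ∀ I ∈ J₁ ++ J₂, ∀ p ∈ I, p.Prime := fun I hI => hp I (hperm.mem_iff.mpr hI)
  have hd' : (J₁ ++ J₂).Pairwise (fun I J => Disjoint I J) := (hperm.pairwise_iff (fun h => h.symm)).mp hd
  have hc := PU_coprime hp' hd'
  have p1 : ∀ u ∈ PU J₁, 0 < u := PU_pos fun I hI p hpI => (hp' I (List.mem_append_left _ hI) p hpI).pos
  have p2 : ∀ u ∈ PU J₂, 0 < u := PU_pos fun I hI p hpI => (hp' I (List.mem_append_right _ hI) p hpI).pos
  unfold UU VV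
  rw [hsp hperm hp hd, sum_mul, sum_comm (s := PU J₁) (t := PU J₂), sum_comm (s := PU J₁) (t := PU J₂),
    ← sum_add_distrib]
  refine sum_congr rfl fun u₂ h₂ => ?_
  rw [mul_sum, ← sum_add_distrib]
  refine sum_congr rfl fun u₁ h₁ => ?_
  have q1 : (u₁ : ℝ) ≠ 0 := by exact_mod_cast (p1 u₁ h₁).ne'
  have q2 : (u₂ : ℝ) ≠ 0 := by exact_mod_cast (p2 u₂ h₂).ne'
  have q3 : (Nat.totient u₁ : ℝ) ≠ 0 := by exact_mod_cast (Nat.totient_pos.mpr (p1 u₁ h₁)).ne'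
  have q4 : (Nat.totient u₂ : ℝ) ≠ 0 := by exact_mod_cast (Nat.totient_pos.mpr (p2 u₂ h₂)).ne'
  rw [Nat.totient_mul (hc u₁ h₁ u₂ h₂)]
  push_cast
  field_simp
  ring

/-! ### proper sublists of `IF T` -/

/-- sharp form: `T^(491/1000) √M √L + M √L + L √M + M L T^(-1/100)`, times `(1 + log T)^3` -/
theorem UU_proper (hmem : Stmt_PU_mem) : ∀ᶠ T : ℝ in atTop, ∀ J : List (Finset ℕ), J.Sublist (IF T) → J ≠ IF T →
    ∀ (k : ℤ) (M L M₀ L₀ : ℕ) (α β : ℕ → ℝ), k ≠ 0 → |(k : ℝ)| ≤ T ^ (1 / 1000000 : ℝ) → M₀ ≤ M → L₀ ≤ L →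
    (∀ m, |α m| ≤ 1) → (∀ l, |β l| ≤ 1) →
    |∑ m ∈ Ioc M₀ M, ∑ l ∈ Ioc L₀ L, α m * β l * UU J (m * l + k)| ≤
      10240 * (1 + Real.log T) ^ 3 * (T ^ (491 / 1000 : ℝ) * (Real.sqrt M * Real.sqrt L) +
        M * Real.sqrt L + L * Real.sqrt M + M * L * T ^ (-(1 / 100) : ℝ)) := by
  filter_upwards [hmem, eventually_ge_atTop (Real.exp 1000 : ℝ)] with T hT hTe J hJ hne k M L M₀ L₀ α β hk hkT hM hL hα hβ
  have hT1 : 1 ≤ T := le_trans (by have := Real.add_one_le_exp (1000 : ℝ); linarith) hTe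
  have hT0 : 0 < T := by linarith
  have hlogT : 1000 ≤ Real.log T := by rwa [Real.le_log_iff_exp_le hT0]
  set Z : ℕ := ⌊T ^ (1 / 100 : ℝ)⌋₊ with hZ
  set X : ℕ := ⌊T ^ (491 / 1000 : ℝ)⌋₊ with hX
  have hZT : (Z : ℝ) ≤ T ^ (1 / 100 : ℝ) := Nat.floor_le (by positivity)
  have hXT : (X : ℝ) ≤ T ^ (491 / 1000 : ℝ) := Nat.floor_le (by positivity)
  have g1 : (2 : ℝ) ≤ T ^ (1 / 100 : ℝ) := by
    rw [Real.rpow_def_of_pos hT0]
    have := Real.add_one_le_exp (Real.log T * (1 / 100))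
    linarith
  have hZ1 : 1 ≤ Z := Nat.le_floor (by push_cast; linarith)
  have hZ2 : T ^ (1 / 100 : ℝ) / 2 ≤ Z := by
    have := Nat.lt_floor_add_one (T ^ (1 / 100 : ℝ))
    rw [← hZ] at this
    linarith
  have hX1 : 1 ≤ X := Nat.le_floor (by push_cast; exact Real.one_le_rpow hT1 (by norm_num))
  have hS : ∀ u ∈ PU J, 0 < u ∧ u ≤ X ∧ IsCoprime k (u : ℤ) ∧ ∀ p : ℕ, p.Prime → p ∣ u → Z ≤ p := by
    intro u hu
    obtain ⟨a1, a2, a3, a4, a5, a6⟩ := hT J hJ u hu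
    refine ⟨Nat.pos_of_ne_zero a1.ne_zero, Nat.le_floor (a6 hne), ?_, fun p hp hpu => ?_⟩
    · rw [Int.isCoprime_iff_gcd_eq_one]
      by_contra hg
      obtain ⟨p, hp, hpg⟩ := Nat.exists_prime_and_dvd hg
      have h1 : (p : ℤ) ∣ k := (Int.natCast_dvd_natCast.mpr hpg).trans (Int.gcd_dvd_left _ _)
      have h2 : p ∣ u := by
        have : (p : ℤ) ∣ (u : ℤ) := (Int.natCast_dvd_natCast.mpr hpg).trans (Int.gcd_dvd_right _ _)
        exact_mod_cast this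
      have h3 := a4 p hp h2
      have h4 : (p : ℝ) ≤ |(k : ℝ)| := by
        have := Int.le_of_dvd (abs_pos.mpr hk) ((dvd_abs _ _).mpr h1)
        exact_mod_cast this
      have h5 : T ^ (1 / 1000000 : ℝ) ≤ T ^ (1 / 100 : ℝ) := Real.rpow_le_rpow_of_exponent_le hT1 (by norm_num)
      linarith
    · have h1 : (Z : ℝ) ≤ p := hZT.trans (a4 p hp hpu).le
      exact_mod_cast h1
  have hc : ∀ u ∈ PU J, |(u : ℝ) / Nat.totient u| ≤ 128 := by
    intro u hu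
    obtain ⟨a1, a2, a3, -, -, -⟩ := hT J hJ u hu
    have h0 : (0 : ℝ) < Nat.totient u := by exact_mod_cast Nat.totient_pos.mpr (Nat.pos_of_ne_zero a1.ne_zero)
    rw [abs_of_nonneg (by positivity), div_le_iff₀ h0]
    refine (tot_ge u).trans ?_
    have h1 : (2 : ℝ) ^ u.primeFactors.card ≤ 2 ^ 7 := pow_le_pow_right₀ (by norm_num) (by omega)
    have h2 : (2 : ℝ) ^ 7 = 128 := by norm_num
    rw [h2] at h1
    gcongr
  have h1 := core hZ1 hX1 hS (c := fun u => (u : ℝ) / Nat.totient u) (C := 128) (by norm_num) hc hM hL hα hβ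
  have h2 : ∑ m ∈ Ioc M₀ M, ∑ l ∈ Ioc L₀ L, α m * β l * UU J (m * l + k) =
      ∑ m ∈ Ioc M₀ M, ∑ l ∈ Ioc L₀ L, α m * β l *
      ∑ u ∈ PU J, (fun u : ℕ => (u : ℝ) / Nat.totient u) u *
        ((if (u : ℤ) ∣ (m : ℤ) * l + k then (1 : ℝ) else 0) - 1 / u) := rfl
  rw [h2]
  refine h1.trans ?_
  have hlX : Real.log X ≤ Real.log T := by
    apply Real.log_le_log (by exact_mod_cast hX1)
    refine hXT.trans ?_
    calc T ^ (491 / 1000 : ℝ) ≤ T ^ (1 : ℝ) := Real.rpow_le_rpow_of_exponent_le hT1 (by norm_num)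
      _ = T := Real.rpow_one T
  have hlX0 : 0 ≤ Real.log X := Real.log_nonneg (by exact_mod_cast hX1)
  have hZ0 : (0 : ℝ) < Z := by exact_mod_cast hZ1
  have hMLZ : (M : ℝ) * L / Z ≤ 2 * (M * L * T ^ (-(1 / 100) : ℝ)) := by
    rw [Real.rpow_neg hT0.le, div_le_iff₀ hZ0]
    have h3 : 0 < T ^ (1 / 100 : ℝ) := by positivity
    calc (M : ℝ) * L = 2 * (M * L * (T ^ (1 / 100 : ℝ))⁻¹) * (T ^ (1 / 100 : ℝ) / 2) := by field_simp
      _ ≤ 2 * (M * L * (T ^ (1 / 100 : ℝ))⁻¹) * Z := by gcongr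
  calc 128 * (40 * (1 + Real.log X) ^ 3 * (X * (Real.sqrt M * Real.sqrt L) + M * Real.sqrt L +
        L * Real.sqrt M + M * L / Z)) ≤ 128 * (40 * (1 + Real.log T) ^ 3 * (T ^ (491 / 1000 : ℝ) *
        (Real.sqrt M * Real.sqrt L) + M * Real.sqrt L + L * Real.sqrt M + 2 * (M * L * T ^ (-(1 / 100) : ℝ)))) := by
        gcongr
    _ ≤ 128 * (40 * (1 + Real.log T) ^ 3 * (2 * (T ^ (491 / 1000 : ℝ) *
        (Real.sqrt M * Real.sqrt L) + M * Real.sqrt L + L * Real.sqrt M + M * L * T ^ (-(1 / 100) : ℝ)))) := by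
        have s1 : 0 ≤ T ^ (491 / 1000 : ℝ) * (Real.sqrt M * Real.sqrt L) := by positivity
        have s2 : 0 ≤ M * Real.sqrt L := by positivity
        have s3 : 0 ≤ L * Real.sqrt M := by positivity
        gcongr
        linarith
    _ = _ := by ring

/-- the form used in UP, US: `M, L ≥ T^a` -/
theorem B1 (hmem : Stmt_PU_mem) {a : ℝ} (ha : 0 < a) (ha' : a ≤ 1 / 100) : ∀ᶠ T : ℝ in atTop,
    ∀ J : List (Finset ℕ), J.Sublist (IF T) → J ≠ IF T → ∀ (k : ℤ) (M L M₀ L₀ : ℕ) (α β : ℕ → ℝ), k ≠ 0 →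
    |(k : ℝ)| ≤ T ^ (1 / 1000000 : ℝ) → M₀ ≤ M → L₀ ≤ L → T ^ a ≤ M → T ^ a ≤ L →
    (M : ℝ) * L ≤ T ^ (1 + 1 / 1000000 : ℝ) → (∀ m, |α m| ≤ 1) → (∀ l, |β l| ≤ 1) →
    |∑ m ∈ Ioc M₀ M, ∑ l ∈ Ioc L₀ L, α m * β l * UU J (m * l + k)| ≤ T ^ (1 - a / 2 + 2 / 1000000 : ℝ) := by
  have hlog : ∀ᶠ T : ℝ in atTop, 40960 * (1 + Real.log T) ^ 3 ≤ T ^ (1 / 1000000 : ℝ) := by
    have h1 : Tendsto (fun T : ℝ => (1 + Real.log T) ^ 3 / T ^ (1 / 1000000 : ℝ)) atTop (nhds 0) := by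
      have h2 : Tendsto (fun x : ℝ => (Real.log x) ^ (3 : ℝ) / x ^ (1 / 1000000 : ℝ)) atTop (nhds 0) :=
        (isLittleO_log_rpow_rpow_atTop (s := 1 / 1000000) 3 (by norm_num)).tendsto_div_nhds_zero
      have h3 : Tendsto (fun T : ℝ => 8 * ((Real.log T) ^ (3 : ℝ) / T ^ (1 / 1000000 : ℝ))) atTop (nhds 0) := by
        simpa using h2.const_mul 8
      refine squeeze_zero' ?_ ?_ h3
      · filter_upwards [eventually_ge_atTop (Real.exp 1)] with T hT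
        have hT0 : 0 < T := lt_of_lt_of_le (Real.exp_pos _) hT
        have : 1 ≤ Real.log T := by rwa [Real.le_log_iff_exp_le hT0]
        positivity
      · filter_upwards [eventually_ge_atTop (Real.exp 1)] with T hT
        have hT0 : 0 < T := lt_of_lt_of_le (Real.exp_pos _) hT
        have h4 : 1 ≤ Real.log T := by rwa [Real.le_log_iff_exp_le hT0]
        have h5 : (1 + Real.log T) ^ 3 ≤ 8 * (Real.log T) ^ (3 : ℝ) := by
          have h6 : (Real.log T) ^ (3 : ℝ) = (Real.log T) ^ (3 : ℕ) := by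
            rw [← Real.rpow_natCast]; norm_num
          rw [h6]
          calc (1 + Real.log T) ^ 3 ≤ (2 * Real.log T) ^ 3 := by
                apply pow_le_pow_left₀ (by linarith)
                linarith
            _ = _ := by ring
        rw [← mul_div_assoc]
        gcongr
    have h7 : ∀ᶠ T : ℝ in atTop, (1 + Real.log T) ^ 3 / T ^ (1 / 1000000 : ℝ) < 1 / 40960 :=
      h1.eventually_lt_const (by norm_num)
    filter_upwards [h7, eventually_gt_atTop 0] with T h8 hT0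
    have h9 : 0 < T ^ (1 / 1000000 : ℝ) := by positivity
    rw [div_lt_iff₀ h9] at h8
    linarith
  filter_upwards [UU_proper hmem, hlog, eventually_ge_atTop (1 : ℝ)] with T hT hlT hT1 J hJ hne k M L M₀ L₀ α β hk
    hkT hM hL hMa hLa hML hα hβ
  have hT0 : 0 < T := by linarith
  refine (hT J hJ hne k M L M₀ L₀ α β hk hkT hM hL hα hβ).trans ?_
  have hs : ∀ x : ℝ, T ^ a ≤ x → (M : ℝ) * L / Real.sqrt x ≤ T ^ (1 - a / 2 + 1 / 1000000 : ℝ) := by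
    intro x hx
    have hx0 : 0 < x := lt_of_lt_of_le (by positivity) hx
    rw [div_le_iff₀ (Real.sqrt_pos.mpr hx0)]
    have h1 : T ^ (a / 2) ≤ Real.sqrt x := by
      apply Real.le_sqrt_of_sq_le
      rw [← Real.rpow_natCast, ← Real.rpow_mul hT0.le]
      norm_num
      exact hx
    calc (M : ℝ) * L ≤ T ^ (1 + 1 / 1000000 : ℝ) := hML
      _ = T ^ (1 - a / 2 + 1 / 1000000 : ℝ) * T ^ (a / 2) := by
          rw [← Real.rpow_add hT0]; congr 1; ring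
      _ ≤ _ := by gcongr
  have hM0 : (0 : ℝ) < M := lt_of_lt_of_le (by positivity) hMa
  have hL0 : (0 : ℝ) < L := lt_of_lt_of_le (by positivity) hLa
  have t1 : T ^ (491 / 1000 : ℝ) * (Real.sqrt M * Real.sqrt L) ≤ T ^ (1 - a / 2 + 1 / 1000000 : ℝ) := by
    rw [← Real.sqrt_mul hM0.le]
    have h1 : Real.sqrt (M * L) ≤ T ^ ((1 + 1 / 1000000) / 2 : ℝ) := by
      rw [Real.sqrt_le_left (by positivity), ← Real.rpow_natCast, ← Real.rpow_mul hT0.le]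
      refine hML.trans (le_of_eq ?_)
      congr 1
      push_cast
      ring
    calc T ^ (491 / 1000 : ℝ) * Real.sqrt (M * L) ≤ T ^ (491 / 1000 : ℝ) * T ^ ((1 + 1 / 1000000) / 2 : ℝ) := by
          gcongr
      _ = T ^ (491 / 1000 + (1 + 1 / 1000000) / 2 : ℝ) := by rw [Real.rpow_add hT0]
      _ ≤ _ := Real.rpow_le_rpow_of_exponent_le hT1 (by linarith)
  have t2 : (M : ℝ) * Real.sqrt L ≤ T ^ (1 - a / 2 + 1 / 1000000 : ℝ) := by
    refine le_trans (le_of_eq ?_) (hs L hLa)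
    rw [eq_div_iff (Real.sqrt_pos.mpr hL0).ne', mul_assoc, Real.mul_self_sqrt hL0.le]
  have t3 : (L : ℝ) * Real.sqrt M ≤ T ^ (1 - a / 2 + 1 / 1000000 : ℝ) := by
    refine le_trans (le_of_eq ?_) (hs M hMa)
    rw [eq_div_iff (Real.sqrt_pos.mpr hM0).ne', mul_assoc, Real.mul_self_sqrt hM0.le, mul_comm]
  have t4 : (M : ℝ) * L * T ^ (-(1 / 100) : ℝ) ≤ T ^ (1 - a / 2 + 1 / 1000000 : ℝ) := by
    calc (M : ℝ) * L * T ^ (-(1 / 100) : ℝ) ≤ T ^ (1 + 1 / 1000000 : ℝ) * T ^ (-(1 / 100) : ℝ) := by gcongr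
      _ = T ^ (1 + 1 / 1000000 + -(1 / 100) : ℝ) := by rw [← Real.rpow_add hT0]
      _ ≤ _ := Real.rpow_le_rpow_of_exponent_le hT1 (by linarith)
  have hl0 : 0 ≤ Real.log T := Real.log_nonneg hT1
  calc 10240 * (1 + Real.log T) ^ 3 * (T ^ (491 / 1000 : ℝ) * (Real.sqrt M * Real.sqrt L) +
        M * Real.sqrt L + L * Real.sqrt M + M * L * T ^ (-(1 / 100) : ℝ)) ≤
      10240 * (1 + Real.log T) ^ 3 * (4 * T ^ (1 - a / 2 + 1 / 1000000 : ℝ)) := by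
        apply mul_le_mul_of_nonneg_left _ (by positivity)
        linarith
    _ = 40960 * (1 + Real.log T) ^ 3 * T ^ (1 - a / 2 + 1 / 1000000 : ℝ) := by ring
    _ ≤ T ^ (1 / 1000000 : ℝ) * T ^ (1 - a / 2 + 1 / 1000000 : ℝ) := by gcongr
    _ = T ^ (1 - a / 2 + 2 / 1000000 : ℝ) := by
        rw [← Real.rpow_add hT0]
        congr 1
        ring

/-! ### `∑ 1/φ(u) ≤ 1` -/

lemma prod_le_one' {J : List (Finset ℕ)} (h : ∀ I ∈ J, 0 ≤ cI I ∧ cI I ≤ 1) :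
    0 ≤ (J.map cI).prod ∧ (J.map cI).prod ≤ 1 := by
  induction J with
  | nil => simp
  | cons I J ih =>
    obtain ⟨h1, h2⟩ := ih fun I' hI' => h I' (List.mem_cons_of_mem _ hI')
    obtain ⟨h3, h4⟩ := h I List.mem_cons_self
    rw [List.map_cons, List.prod_cons]
    exact ⟨mul_nonneg h3 h1, mul_le_one₀ h4 h1 h2⟩

theorem PU_tot_le (hc : Stmt_cI_lim) : ∀ᶠ T : ℝ in atTop, ∀ J : List (Finset ℕ), J.Sublist (IF T) →
    ∑ u ∈ PU J, 1 / (Nat.totient u : ℝ) ≤ 1 := by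
  have h1 : ∀ e ∈ esF (1 / 1000000), ∀ᶠ T : ℝ in atTop, cI (IP e (1 / 100000000) T) ≤ 1 := by
    intro e he
    have he0 : (1 : ℝ) / 100 ≤ e := by
      unfold esF at he
      simp only [List.mem_cons, List.not_mem_nil, or_false] at he
      rcases he with rfl | rfl | rfl | rfl | rfl | rfl | rfl <;> norm_num
    have h2 := hc (e := e) (v := 1 / 100000000) (by linarith) (by norm_num)
    refine (h2.eventually_lt_const (u := 1) ?_).mono fun T h => h.le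
    have h3 : Real.log (1 + 1 / 100000000 / e) ≤ 1 / 100000000 / e := by
      have := Real.log_le_sub_one_of_pos (x := 1 + 1 / 100000000 / e) (by positivity)
      linarith
    have h4 : (1 : ℝ) / 100000000 / e < 1 := by
      rw [div_lt_one (by linarith)]
      linarith
    linarith
  have h5 : ∀ᶠ T : ℝ in atTop, ∀ e ∈ esF (1 / 1000000), cI (IP e (1 / 100000000) T) ≤ 1 := by
    have : {e : ℝ | e ∈ esF (1 / 1000000)}.Finite := List.finite_toSet _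
    exact (eventually_all_finite this).mpr h1
  filter_upwards [h5] with T hT J hJ
  have hpr : ∀ I ∈ J, ∀ p ∈ I, p.Prime := by
    intro I hI p hp
    have hI' := hJ.subset hI
    rw [IF, IL, List.mem_map] at hI'
    obtain ⟨e, -, rfl⟩ := hI'
    exact (Pool.Agent.Helper64.UHs.IP_mem hp).1
  refine (PU_tot hpr).trans (prod_le_one' fun I hI => ⟨?_, ?_⟩).2
  · refine sum_nonneg fun p hp => ?_
    have : (2 : ℝ) ≤ p := by exact_mod_cast (hpr I hI p hp).two_le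
    have : (0 : ℝ) < p - 1 := by linarith
    positivity
  · have hI' := hJ.subset hI
    rw [IF, IL, List.mem_map] at hI'
    obtain ⟨e, he, rfl⟩ := hI'
    exact hT e he

end Pool.Agent.Helper64.Bt
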